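import Pool.Agent.Helper5.TreeExp.Family

namespace Pool.Agent.Helper5.TreeExp

theorem exists_root (k m : ℕ) (hk : 1 ≤ k) (hm : 1 ≤ m) :
    ∃ K : ℕ, 1 ≤ K ∧ K ^ m ≤ k ∧ k ≤ (2 * K) ^ m ∧ (K : ℝ) ≤ (k : ℝ) ^ ((1 : ℝ) / m) := by
  have hm0 : (0 : ℝ) < m := by exact_mod_cast hm
  have hk1 : (1 : ℝ) ≤ k := by exact_mod_cast hk
  have hx1 : (1 : ℝ) ≤ (k : ℝ) ^ ((1 : ℝ) / m) := Real.one_le_rpow hk1 (by positivity)
  have hxm : ((k : ℝ) ^ ((1 : ℝ) / m)) ^ m = k := by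
    rw [← Real.rpow_natCast, ← Real.rpow_mul (by positivity), one_div,
      inv_mul_cancel₀ hm0.ne', Real.rpow_one]
  have hfl : ((⌊(k : ℝ) ^ ((1 : ℝ) / m)⌋₊ : ℕ) : ℝ) ≤ (k : ℝ) ^ ((1 : ℝ) / m) :=
    Nat.floor_le (by positivity)
  have hfl2 : (k : ℝ) ^ ((1 : ℝ) / m) < (⌊(k : ℝ) ^ ((1 : ℝ) / m)⌋₊ : ℕ) + 1 :=
    Nat.lt_floor_add_one _
  have hK1 : 1 ≤ ⌊(k : ℝ) ^ ((1 : ℝ) / m)⌋₊ := (Nat.one_le_floor_iff _).mpr hx1
  have hK1' : (1 : ℝ) ≤ (⌊(k : ℝ) ^ ((1 : ℝ) / m)⌋₊ : ℕ) := by exact_mod_cast hK1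
  refine ⟨⌊(k : ℝ) ^ ((1 : ℝ) / m)⌋₊, hK1, ?_, ?_, hfl⟩
  · have : ((⌊(k : ℝ) ^ ((1 : ℝ) / m)⌋₊ : ℕ) : ℝ) ^ m ≤ ((k : ℝ) ^ ((1 : ℝ) / m)) ^ m :=
      pow_le_pow_left₀ (by positivity) hfl m
    rw [hxm] at this
    exact_mod_cast this
  · have : ((k : ℝ) ^ ((1 : ℝ) / m)) ^ m ≤ (2 * (⌊(k : ℝ) ^ ((1 : ℝ) / m)⌋₊ : ℕ)) ^ m :=
      pow_le_pow_left₀ (by positivity) (by linarith) m
    rw [hxm] at this
    exact_mod_cast this

/-- a good `m`-th root, with constant loss -/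
theorem exists_good_root (k m : ℕ) (hk : 1 ≤ k) (hm : 1 ≤ m)
    (hcond : m = 1 ∨ (2 * m : ℝ) ≤ (k : ℝ) ^ ((1 : ℝ) / m)) :
    ∃ K : ℕ, 1 ≤ K ∧ K ^ m ≤ k ∧ (k : ℝ) ≤ 3 * (K : ℝ) ^ m ∧
      (K : ℝ) ≤ (k : ℝ) ^ ((1 : ℝ) / m) := by
  rcases hcond with rfl | hcond
  · have hk0 : (0 : ℝ) ≤ k := by positivity
    refine ⟨k, hk, by simp, ?_, by simp⟩
    simp only [pow_one]
    linarith
  have hm0 : (0 : ℝ) < m := by exact_mod_cast hm
  have hm1 : (1 : ℝ) ≤ m := by exact_mod_cast hm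
  have hk1 : (1 : ℝ) ≤ k := by exact_mod_cast hk
  have hx1 : (1 : ℝ) ≤ (k : ℝ) ^ ((1 : ℝ) / m) := Real.one_le_rpow hk1 (by positivity)
  have hxm : ((k : ℝ) ^ ((1 : ℝ) / m)) ^ m = k := by
    rw [← Real.rpow_natCast, ← Real.rpow_mul (by positivity), one_div,
      inv_mul_cancel₀ hm0.ne', Real.rpow_one]
  set K : ℕ := ⌊(k : ℝ) ^ ((1 : ℝ) / m)⌋₊ with hK
  have hfl : (K : ℝ) ≤ (k : ℝ) ^ ((1 : ℝ) / m) := Nat.floor_le (by positivity)
  have hfl2 : (k : ℝ) ^ ((1 : ℝ) / m) < (K : ℝ) + 1 := Nat.lt_floor_add_one _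
  have hK1 : 1 ≤ K := (Nat.one_le_floor_iff _).mpr hx1
  have hK1' : (1 : ℝ) ≤ K := by exact_mod_cast hK1
  have hKm : (m : ℝ) ≤ K := by linarith
  refine ⟨K, hK1, ?_, ?_, hfl⟩
  · have : (K : ℝ) ^ m ≤ ((k : ℝ) ^ ((1 : ℝ) / m)) ^ m :=
      pow_le_pow_left₀ (by positivity) hfl m
    rw [hxm] at this
    exact_mod_cast this
  · have h1 : (k : ℝ) ≤ ((K : ℝ) + 1) ^ m := by
      calc (k : ℝ) = ((k : ℝ) ^ ((1 : ℝ) / m)) ^ m := hxm.symm
        _ ≤ ((K : ℝ) + 1) ^ m := pow_le_pow_left₀ (by positivity) hfl2.le m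
    have h2 : (K : ℝ) + 1 = K * (1 + 1 / K) := by field_simp
    have h3 : (1 + 1 / (K : ℝ)) ^ m ≤ 3 := by
      calc (1 + 1 / (K : ℝ)) ^ m ≤ (Real.exp (1 / K)) ^ m := by
            apply pow_le_pow_left₀ (by positivity)
            have := Real.add_one_le_exp (1 / (K : ℝ))
            linarith
        _ = Real.exp (m * (1 / K)) := by rw [Real.exp_nat_mul]
        _ ≤ Real.exp 1 := by
            apply Real.exp_le_exp.mpr
            rw [mul_one_div]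
            exact (div_le_one (by positivity)).mpr hKm
        _ ≤ 3 := by
            have := Real.exp_one_lt_d9
            linarith
    calc (k : ℝ) ≤ ((K : ℝ) + 1) ^ m := h1
      _ = (K : ℝ) ^ m * (1 + 1 / K) ^ m := by rw [h2, mul_pow]
      _ ≤ (K : ℝ) ^ m * 3 := mul_le_mul_of_nonneg_left h3 (by positivity)
      _ = 3 * (K : ℝ) ^ m := by ring

theorem numeric (d m k K N nR : ℕ) (hd : 1 ≤ d) (hm : 1 ≤ m) (hk : 2 ≤ k) (hN : 1 ≤ N)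
    (hKm2 : (k : ℝ) ≤ 3 * (K : ℝ) ^ m) (hK1 : 1 ≤ K)
    (hKr : (K : ℝ) ≤ (k : ℝ) ^ ((1 : ℝ) / m))
    (h1 : k ^ ((K ^ m) ^ d) ≤ N ^ (1 + K * nR)) (h2 : k ^ d * nR ≤ N) :
    (((4 * (d : ℝ) * 3 ^ d) ^ 2)⁻¹) * (k : ℝ) ^ (2 * (d : ℝ) - (1 : ℝ) / m) ≤ N := by
  have hk0 : (0 : ℝ) < k := by positivity
  have hk1 : (1 : ℝ) ≤ k := by exact_mod_cast (by omega : 1 ≤ k)
  have hN1 : (1 : ℝ) ≤ N := by exact_mod_cast hN
  have hd1 : (1 : ℝ) ≤ d := by exact_mod_cast hd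
  have hK1' : (1 : ℝ) ≤ K := by exact_mod_cast hK1
  set W : ℝ := 4 * (d : ℝ) * 3 ^ d with hW
  have h2p : (1 : ℝ) ≤ 3 ^ d := one_le_pow₀ (by norm_num)
  have hW1 : 1 ≤ W := by nlinarith
  have hW0 : 0 < W := by linarith
  set X : ℝ := (k : ℝ) ^ d with hX
  have hX1 : 1 ≤ X := one_le_pow₀ hk1
  have hexp : (k : ℝ) ^ (2 * (d : ℝ) - (1 : ℝ) / m) = X ^ 2 / (k : ℝ) ^ ((1 : ℝ) / m) := by
    rw [Real.rpow_sub hk0]
    congr 1
    rw [hX, ← pow_mul, ← Real.rpow_natCast]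
    congr 1
    push_cast
    ring
  have hr1 : (1 : ℝ) ≤ (k : ℝ) ^ ((1 : ℝ) / m) := Real.one_le_rpow hk1 (by positivity)
  rw [hexp]
  by_cases hbig : k ^ (2 * d) ≤ N
  · have hb : X ^ 2 ≤ N := by
      rw [hX, ← pow_mul, mul_comm d 2]
      exact_mod_cast hbig
    calc (W ^ 2)⁻¹ * (X ^ 2 / (k : ℝ) ^ ((1 : ℝ) / m))
        ≤ 1 * (X ^ 2 / 1) := by
          apply mul_le_mul
          · exact inv_le_one_of_one_le₀ (one_le_pow₀ hW1)
          · exact div_le_div_of_nonneg_left (by positivity) one_pos hr1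
          · positivity
          · norm_num
      _ = X ^ 2 := by ring
      _ ≤ N := hb
  · have hNlt : N ≤ k ^ (2 * d) := by omega
    have h3 : k ^ ((K ^ m) ^ d) ≤ k ^ (2 * d * (1 + K * nR)) := by
      calc k ^ ((K ^ m) ^ d) ≤ N ^ (1 + K * nR) := h1
        _ ≤ (k ^ (2 * d)) ^ (1 + K * nR) := Nat.pow_le_pow_left hNlt _
        _ = _ := by rw [← pow_mul]
    have h4 : (K ^ m) ^ d ≤ 2 * d * (1 + K * nR) := (Nat.pow_le_pow_iff_right (by omega)).mp h3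
    have h4r : ((K : ℝ) ^ m) ^ d ≤ 2 * d * (1 + K * nR) := by exact_mod_cast h4
    have h2r : X * nR ≤ N := by rw [hX]; exact_mod_cast h2
    set Y : ℝ := ((K : ℝ) ^ m) ^ d with hY
    have hY1 : 1 ≤ Y := one_le_pow₀ (one_le_pow₀ hK1')
    have hXY : X ≤ 3 ^ d * Y := by
      calc X ≤ (3 * (K : ℝ) ^ m) ^ d := pow_le_pow_left₀ (by positivity) hKm2 d
        _ = 3 ^ d * Y := by rw [mul_pow]
    -- multiply by X
    have h5 : Y * X ≤ 2 * d * X + 2 * d * K * N := by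
      have : Y * X ≤ 2 * d * (1 + K * nR) * X := mul_le_mul_of_nonneg_right h4r (by positivity)
      calc Y * X ≤ 2 * d * (1 + K * nR) * X := this
        _ = 2 * d * X + 2 * d * K * (X * nR) := by ring
        _ ≤ _ := by
          have : 2 * d * K * (X * nR) ≤ 2 * (d : ℝ) * K * N :=
            mul_le_mul_of_nonneg_left h2r (by positivity)
          linarith
    by_cases hY4 : 4 * (d : ℝ) ≤ Y
    · have h6 : Y * X ≤ 4 * d * K * N := by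
        have : 2 * (d : ℝ) * X ≤ Y * X / 2 := by nlinarith
        nlinarith
      have h7 : X ^ 2 ≤ W * K * N := by
        calc X ^ 2 = X * X := by ring
          _ ≤ 3 ^ d * Y * X := mul_le_mul_of_nonneg_right hXY (by positivity)
          _ = 3 ^ d * (Y * X) := by ring
          _ ≤ 3 ^ d * (4 * d * K * N) := mul_le_mul_of_nonneg_left h6 (by positivity)
          _ = W * K * N := by rw [hW]; ring
      have h8 : X ^ 2 ≤ W * (k : ℝ) ^ ((1 : ℝ) / m) * N := by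
        refine h7.trans ?_
        apply mul_le_mul_of_nonneg_right _ (by positivity)
        exact mul_le_mul_of_nonneg_left hKr (by positivity)
      have h9 : X ^ 2 / (k : ℝ) ^ ((1 : ℝ) / m) ≤ W * N := by
        rw [div_le_iff₀ (by positivity)]
        linarith
      calc (W ^ 2)⁻¹ * (X ^ 2 / (k : ℝ) ^ ((1 : ℝ) / m)) ≤ (W ^ 2)⁻¹ * (W * N) :=
            mul_le_mul_of_nonneg_left h9 (by positivity)
        _ = N / W := by field_simp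
        _ ≤ N := div_le_self (by positivity) hW1
    · push Not at hY4
      have h6 : X ≤ W := by
        calc X ≤ 3 ^ d * Y := hXY
          _ ≤ 3 ^ d * (4 * d) := mul_le_mul_of_nonneg_left hY4.le (by positivity)
          _ = W := by rw [hW]; ring
      calc (W ^ 2)⁻¹ * (X ^ 2 / (k : ℝ) ^ ((1 : ℝ) / m)) ≤ (W ^ 2)⁻¹ * (W ^ 2 / 1) := by
            apply mul_le_mul_of_nonneg_left _ (by positivity)
            exact div_le_div₀ (by positivity) (pow_le_pow_left₀ (by positivity) h6 2) one_pos hr1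
        _ = 1 := by field_simp
        _ ≤ N := hN1

/-- the lower bound for one choice of the number `τ` of growing levels -/
theorem lower_tau (d t τ : ℕ) (hd : 2 ≤ d) (hτ : τ ≤ t) (k : ℕ) (hk : 2 ≤ k)
    (hcond : τ = 0 ∨ (2 * (d ^ τ : ℕ) : ℝ) ≤ (k : ℝ) ^ ((1 : ℝ) / (d ^ τ : ℕ)))
    (N : ℕ) (B : BP (Var d k (t + 2)) k N)
    (hB : ∀ T : Inst d k (t + 2), B.Outputs (ask d k (t + 2) T) (value d k (t + 2) T)) :
    (((4 * (d : ℝ) * 3 ^ d) ^ 2)⁻¹) * (k : ℝ) ^ (2 * (d : ℝ) - (1 : ℝ) / (d ^ τ : ℕ)) ≤ N := by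
  have hm : 1 ≤ d ^ τ := Nat.one_le_pow _ _ (by omega)
  obtain ⟨K, hK1, hK2, hK3, hK4⟩ := exists_good_root k (d ^ τ) (by omega) hm
    (hcond.imp (fun h => by rw [h, pow_zero]) id)
  obtain ⟨c0, hc0⟩ := exists_addr (d := d) (t := t) (by omega : 1 ≤ k) B
  have hkap : ∀ i ≤ t, kap d K τ i ≤ k := by
    intro i hi
    rw [kap_eq]
    exact (Nat.pow_le_pow_right hK1 (Nat.pow_le_pow_right (by omega) (min_le_right _ _))).trans hK2
  have h1 := count_tree τ ⟨0, by omega⟩ B hB hK1 hkap c0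
  rw [kap_eq, min_eq_right hτ] at h1
  have hN : 1 ≤ N := by
    have := B.start.2
    omega
  exact numeric d (d ^ τ) k K N _ (by omega) hm hk hN hK3 hK1 hK4 h1 hc0

/-- L: lower bound -/
theorem lower (d : ℕ) (hd : 2 ≤ d) :
    ∃ c : ℝ, 0 < c ∧ ∀ h k : ℕ, 3 ≤ h → 2 ≤ k → ∀ (N : ℕ) (B : BP (Var d k (h - 1)) k N),
      Solves d h k B →
        c * (k : ℝ) ^ (2 * (d : ℝ) - (d : ℝ) ^ (3 - (h : ℝ))) ≤ (Real.logb 2 k) ^ d * (N : ℝ) := by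
  have hd0 : (0 : ℝ) < d := by positivity
  have hd1 : (1 : ℝ) ≤ d := by exact_mod_cast (by omega : 1 ≤ d)
  refine ⟨((4 * (d : ℝ) * 3 ^ d) ^ 2)⁻¹ * ((2 * (d : ℝ)) ^ d)⁻¹, by positivity, ?_⟩
  intro h k hh hk N B hB
  obtain ⟨t, rfl⟩ := Nat.exists_eq_add_of_le' hh
  have hexp : (d : ℝ) ^ (3 - ((t + 3 : ℕ) : ℝ)) = (1 : ℝ) / ((d ^ t : ℕ) : ℝ) := by
    have : (3 - ((t + 3 : ℕ) : ℝ)) = -(t : ℝ) := by push_cast; ring
    rw [this, Real.rpow_neg hd0.le, Real.rpow_natCast]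
    push_cast
    rw [one_div]
  rw [hexp]
  have hB' : ∀ T : Inst d k (t + 2), B.Outputs (ask d k (t + 2) T) (value d k (t + 2) T) := hB
  have hk0 : (0 : ℝ) < k := by positivity
  have hk1 : (1 : ℝ) ≤ k := by exact_mod_cast (by omega : 1 ≤ k)
  have hk2 : (2 : ℝ) ≤ k := by exact_mod_cast hk
  have hb1 : 1 ≤ Real.logb 2 k := by
    rw [Real.le_logb_iff_rpow_le (by norm_num) hk0, Real.rpow_one]
    exact hk2
  have h2b : (2 : ℝ) ^ (Real.logb 2 k) = k := Real.rpow_logb (by norm_num) (by norm_num) hk0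
  classical
  let P : ℕ → Prop := fun τ => τ = 0 ∨ (2 * (d ^ τ : ℕ) : ℝ) ≤ (k : ℝ) ^ ((1 : ℝ) / (d ^ τ : ℕ))
  let τ := Nat.findGreatest P t
  have hτ : τ ≤ t := Nat.findGreatest_le t
  have hPτ : P τ := Nat.findGreatest_spec (P := P) (Nat.zero_le t) (Or.inl rfl)
  have hlow := lower_tau d t τ hd hτ k hk hPτ N B hB'
  set c1 : ℝ := ((4 * (d : ℝ) * 3 ^ d) ^ 2)⁻¹ with hc1
  have hc1pos : 0 < c1 := by positivity
  have hN0 : (0 : ℝ) ≤ N := by positivity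
  have hbd1 : 1 ≤ (Real.logb 2 k) ^ d := one_le_pow₀ hb1
  have hinv : ((2 * (d : ℝ)) ^ d)⁻¹ ≤ 1 := inv_le_one_of_one_le₀ (one_le_pow₀ (by linarith))
  rcases eq_or_lt_of_le hτ with heq | hlt
  · rw [heq] at hlow
    calc c1 * ((2 * (d : ℝ)) ^ d)⁻¹ * (k : ℝ) ^ (2 * (d : ℝ) - 1 / (d ^ t : ℕ))
        ≤ c1 * 1 * (k : ℝ) ^ (2 * (d : ℝ) - 1 / (d ^ t : ℕ)) := by gcongr
      _ = c1 * (k : ℝ) ^ (2 * (d : ℝ) - 1 / (d ^ t : ℕ)) := by ring
      _ ≤ N := hlow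
      _ = 1 * N := (one_mul _).symm
      _ ≤ (Real.logb 2 k) ^ d * N := mul_le_mul_of_nonneg_right hbd1 hN0
  · have hnP : ¬ P (τ + 1) := Nat.findGreatest_is_greatest (Nat.lt_succ_self τ) hlt
    have hnP2 : (k : ℝ) ^ ((1 : ℝ) / (d ^ (τ + 1) : ℕ)) < 2 * (d ^ (τ + 1) : ℕ) := by
      by_contra hcon
      exact hnP (Or.inr (not_lt.mp hcon))
    have hm0 : (1 : ℝ) ≤ (d ^ τ : ℕ) := by
      exact_mod_cast Nat.one_le_pow _ _ (by omega)
    have hmb : ((d ^ τ : ℕ) : ℝ) ≤ Real.logb 2 k := by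
      rcases hPτ with h0 | h0
      · rw [h0, pow_zero]
        simpa using hb1
      · -- 2 m ≤ k^(1/m), so m ≤ log2 k
        have h1 : Real.logb 2 (2 * (d ^ τ : ℕ)) ≤ Real.logb 2 k / (d ^ τ : ℕ) := by
          have := Real.logb_le_logb_of_le (b := 2) (by norm_num) (by positivity) h0
          rw [Real.logb_rpow_eq_mul_logb_of_pos hk0] at this
          calc _ ≤ _ := this
            _ = _ := by ring
        have h2 : (1 : ℝ) ≤ Real.logb 2 (2 * (d ^ τ : ℕ)) := by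
          rw [Real.le_logb_iff_rpow_le (by norm_num) (by positivity), Real.rpow_one]
          linarith
        have h3 := h2.trans h1
        rw [le_div_iff₀ (by positivity)] at h3
        linarith
    have hkey : (k : ℝ) ^ ((1 : ℝ) / (d ^ τ : ℕ)) ≤ (2 * (d : ℝ)) ^ d * (Real.logb 2 k) ^ d := by
      have e1 : (k : ℝ) ^ ((1 : ℝ) / (d ^ τ : ℕ)) = ((k : ℝ) ^ ((1 : ℝ) / (d ^ (τ + 1) : ℕ))) ^ d := by
        rw [← Real.rpow_natCast, ← Real.rpow_mul hk0.le]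
        congr 1
        push_cast
        rw [pow_succ]
        field_simp
      rw [e1, ← mul_pow]
      apply pow_le_pow_left₀ (by positivity)
      refine hnP2.le.trans ?_
      push_cast
      rw [pow_succ]
      push_cast at hmb
      nlinarith
    have hstep : (k : ℝ) ^ (2 * (d : ℝ) - 1 / (d ^ t : ℕ)) ≤
        (k : ℝ) ^ (2 * (d : ℝ) - 1 / (d ^ τ : ℕ)) * (k : ℝ) ^ ((1 : ℝ) / (d ^ τ : ℕ)) := by
      rw [← Real.rpow_add hk0]
      apply Real.rpow_le_rpow_of_exponent_le hk1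
      have : (0 : ℝ) ≤ 1 / (d ^ t : ℕ) := by positivity
      linarith
    calc c1 * ((2 * (d : ℝ)) ^ d)⁻¹ * (k : ℝ) ^ (2 * (d : ℝ) - 1 / (d ^ t : ℕ))
        ≤ c1 * ((2 * (d : ℝ)) ^ d)⁻¹ * ((k : ℝ) ^ (2 * (d : ℝ) - 1 / (d ^ τ : ℕ)) *
            ((2 * (d : ℝ)) ^ d * (Real.logb 2 k) ^ d)) := by
          apply mul_le_mul_of_nonneg_left _ (by positivity)
          refine hstep.trans ?_
          exact mul_le_mul_of_nonneg_left hkey (by positivity)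
      _ = (Real.logb 2 k) ^ d * (c1 * (k : ℝ) ^ (2 * (d : ℝ) - 1 / (d ^ τ : ℕ))) := by
          field_simp
      _ ≤ (Real.logb 2 k) ^ d * N := mul_le_mul_of_nonneg_left hlow (by positivity)

end Pool.Agent.Helper5.TreeExp
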