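import Pool.Agent.Helper5.TreeExp.Rec
import Pool.Agent.Helper5.TreeExp.Lower

namespace Pool.Agent.Helper5.TreeExp

open Polynomial

theorem exists_solver {F : Type} [Field F] [Fintype F] [DecidableEq F] {d D k s : ℕ}
    (hd : 1 ≤ d) (hk : 1 ≤ k) (ℓ : Fin s → F[X]) (pt : Fin s → F) (δ : ℕ)
    (hdeg : ∀ c, (ℓ c).natDegree ≤ δ) (hev : ∀ c c', (ℓ c).eval (pt c') = if c = c' then 1 else 0)
    (dig : Fin k → Fin D → Fin s) (hdig : Function.Injective dig)
    (hδ : d * D * δ < Fintype.card F - 1) (n : ℕ) :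
    ∃ (N : ℕ) (B : BP (Var d k n) k N),
      (∀ T : Inst d k n, B.Outputs (ask d k n T) (value d k n T)) ∧
      N ≤ (D * len d D k (Fintype.card F) n + 1) * Fintype.card F ^ (d * D + 1) := by
  classical
  have hpt : Function.Injective pt := by
    intro c c' h
    by_contra hne
    have h1 := hev c c'
    rw [if_neg hne, ← h, hev c c, if_pos rfl] at h1
    exact one_ne_zero h1
  have hA := exists_adds (d := d) (D := D) (k := k) ℓ pt δ hdeg hev dig hdig hδ n
  choose G hG1 hG2 using hA
  let c0 : Fin d := ⟨0, hd⟩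
  let P : List (Var d k n × (Fin k → (Idx d D → F) → (Idx d D → F))) :=
    (Finset.univ : Finset (Fin D)).toList.flatMap
      (fun t => G (some (c0, t)) (fun a => pt (dig a t)))
  have hlen : P.length ≤ D * len d D k (Fintype.card F) n := by
    have := length_flatMap_le (Finset.univ : Finset (Fin D)).toList
      (fun t => G (some (c0, t)) (fun a => pt (dig a t))) (len d D k (Fintype.card F) n)
      (fun t _ => hG1 _ _)
    refine this.trans ?_
    rw [Finset.length_toList]
    simp
  have hrun : ∀ T : Inst d k n, run (ask d k n T) P 0 =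
      ∑ t : Fin D, Pi.single (some (c0, t)) (pt (dig (value d k n T) t)) := by
    intro T
    have := run_flatMap_add (ask d k n T) (Finset.univ : Finset (Fin D)).toList
      (fun t => G (some (c0, t)) (fun a => pt (dig a t)))
      (fun t _ => Pi.single (some (c0, t)) (pt (dig (value d k n T) t)))
      (fun t _ w => hG2 _ _ _ _ ⟨T, rfl, rfl⟩ w)
      (by intros; rfl) 0
    rw [this, Finset.sum_map_toList, zero_add]
  let out : (Idx d D → F) → Fin k := fun w =>
    if h : ∃ v, ∀ t, w (some (c0, t)) = pt (dig v t) then h.choose else ⟨0, hk⟩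
  obtain ⟨B, hB⟩ := exists_BP P 0 out
  refine ⟨_, B, ?_, ?_⟩
  · intro T
    have h := hB (ask d k n T)
    have hw : ∀ t, (run (ask d k n T) P 0) (some (c0, t)) = pt (dig (value d k n T) t) := by
      intro t
      rw [hrun T, Finset.sum_apply, Finset.sum_eq_single t]
      · simp
      · intro b _ hb
        apply Pi.single_eq_of_ne
        intro h
        apply hb
        have := Option.some_injective _ h
        exact (Prod.mk.inj this).2.symm
      · intro h; exact absurd (Finset.mem_univ _) h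
    have hout : out (run (ask d k n T) P 0) = value d k n T := by
      have hex : ∃ v, ∀ t, (run (ask d k n T) P 0) (some (c0, t)) = pt (dig v t) := ⟨_, hw⟩
      simp only [out]
      rw [dif_pos hex]
      apply hdig
      funext t
      apply hpt
      rw [← hex.choose_spec t, hw t]
    rw [hout] at h
    exact h
  · have hc : Fintype.card (Idx d D → F) = Fintype.card F ^ (d * D + 1) := by
      simp [Idx]
    rw [hc]
    exact Nat.mul_le_mul_right _ (by omega)

theorem len_le (d D k q n : ℕ) (hd : 1 ≤ d) (hD : 1 ≤ D) (hk : 1 ≤ k) :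
    len d D k q n ≤ (3 * d * D * q) ^ n * k ^ d := by
  induction n with
  | zero => simpa [len] using Nat.one_le_pow d k hk
  | succ n ih =>
    rw [len]
    have hdD : 1 ≤ d * D := Nat.mul_pos hd hD
    rcases Nat.eq_zero_or_pos q with rfl | hq
    · simp
    have h1 : 1 ≤ (3 * d * D * q) ^ n := Nat.one_le_pow _ _ (by positivity)
    calc q * (2 * (d * D * len d D k q n) + k ^ d)
        ≤ q * (2 * (d * D * ((3 * d * D * q) ^ n * k ^ d)) + d * D * ((3 * d * D * q) ^ n * k ^ d)) := by
          apply Nat.mul_le_mul_left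
          apply Nat.add_le_add
          · apply Nat.mul_le_mul_left
            exact Nat.mul_le_mul_left _ ih
          · calc k ^ d = 1 * (1 * k ^ d) := by ring
              _ ≤ d * D * ((3 * d * D * q) ^ n * k ^ d) :=
                Nat.mul_le_mul hdD (Nat.mul_le_mul_right _ h1)
      _ = (3 * d * D * q) ^ (n + 1) * k ^ d := by ring

theorem exists_solver' (d D k n K : ℕ) (hd : 1 ≤ d) (hD : 1 ≤ D) (hk : 1 ≤ k) (hK : 1 ≤ K)
    (hkK : k ≤ (2 * K) ^ D) :
    ∃ (N : ℕ) (B : BP (Var d k n) k N),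
      (∀ T : Inst d k n, B.Outputs (ask d k n T) (value d k n T)) ∧
      N ≤ (D * ((3 * d * D * (4 * d * D * K)) ^ n * k ^ d) + 1) * (4 * d * D * K) ^ (d * D + 1) := by
  classical
  have hdD : 1 ≤ d * D := Nat.mul_pos hd hD
  obtain ⟨p, hp, hp1, hp2⟩ := Nat.exists_prime_lt_and_le_two_mul (d * D * (2 * K)) (by positivity)
  have : Fact p.Prime := ⟨hp⟩
  have hsp : 2 * K < p := lt_of_le_of_lt (Nat.le_mul_of_pos_left _ hdD) hp1
  let pt : Fin (2 * K) → ZMod p := fun c => ((c : ℕ) : ZMod p)
  have hpt : Function.Injective pt := by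
    intro c c' h
    have h1 : ((c : ℕ) : ZMod p) = ((c' : ℕ) : ZMod p) := h
    rw [ZMod.natCast_eq_natCast_iff'] at h1
    rw [Nat.mod_eq_of_lt (by omega), Nat.mod_eq_of_lt (by omega)] at h1
    exact Fin.ext h1
  let ℓ : Fin (2 * K) → (ZMod p)[X] := fun c => Lagrange.basis Finset.univ pt c
  have hdeg : ∀ c, (ℓ c).natDegree ≤ 2 * K - 1 := by
    intro c
    have := Lagrange.degree_basis (s := Finset.univ) (v := pt) (hpt.injOn) (Finset.mem_univ c)
    rw [Finset.card_univ, Fintype.card_fin] at this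
    exact (natDegree_eq_of_degree_eq_some this).le
  have hev : ∀ c c', (ℓ c).eval (pt c') = if c = c' then 1 else 0 := by
    intro c c'
    split_ifs with h
    · subst h
      exact Lagrange.eval_basis_self hpt.injOn (Finset.mem_univ c)
    · exact Lagrange.eval_basis_of_ne h (Finset.mem_univ c')
  have hcard : Fintype.card (Fin k) ≤ Fintype.card (Fin D → Fin (2 * K)) := by
    simpa using hkK
  obtain ⟨dig⟩ := Function.Embedding.nonempty_of_card_le hcard
  have hF : Fintype.card (ZMod p) = p := ZMod.card p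
  have hδ : d * D * (2 * K - 1) < Fintype.card (ZMod p) - 1 := by
    rw [hF]
    have h1 : d * D * (2 * K - 1) + d * D = d * D * (2 * K) := by
      rw [← Nat.mul_succ]
      congr 1
      omega
    omega
  obtain ⟨N, B, hB1, hB2⟩ := exists_solver (F := ZMod p) (D := D) hd hk ℓ pt (2 * K - 1) hdeg hev
    dig dig.injective hδ n
  refine ⟨N, B, hB1, hB2.trans ?_⟩
  rw [hF]
  have hp4 : p ≤ 4 * d * D * K := by
    calc p ≤ 2 * (d * D * (2 * K)) := hp2
      _ = 4 * d * D * K := by ring
  apply Nat.mul_le_mul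
  · apply Nat.add_le_add_right
    apply Nat.mul_le_mul_left
    refine (len_le d D k p n hd hD hk).trans ?_
    apply Nat.mul_le_mul_right
    apply Nat.pow_le_pow_left
    exact Nat.mul_le_mul_left _ hp4
  · exact Nat.pow_le_pow_left hp4 _

/-- U: upper bound, uniform in the height and in `k` -/
theorem upper (d : ℕ) (hd : 2 ≤ d) :
    ∃ C : ℝ, ∀ h k : ℕ, 1 ≤ h → 2 ≤ k → ∃ (N : ℕ) (B : BP (Var d k (h - 1)) k N),
      Solves d h k B ∧ (N : ℝ) ≤ (k : ℝ) ^ (2 * d) *
        (2 : ℝ) ^ (C * (h * Real.logb 2 (2 * Real.logb 2 k) +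
          Real.sqrt (h * Real.logb 2 k * Real.logb 2 (2 * Real.logb 2 k)))) := by
  set c1 : ℝ := Real.logb 2 (12 * d ^ 2) with hc1
  set c2 : ℝ := Real.logb 2 (4 * d) with hc2
  have hd1 : (1 : ℝ) ≤ d := by exact_mod_cast (by omega : 1 ≤ d)
  have hc1p : 0 ≤ c1 := Real.logb_nonneg (by norm_num) (by nlinarith)
  have hc2p : 0 ≤ c2 := Real.logb_nonneg (by norm_num) (by linarith)
  refine ⟨2 + (c1 + 2) + 2 * d * (c2 + 1) + 1, ?_⟩
  intro h k hh hk
  obtain ⟨n, rfl⟩ := Nat.exists_eq_add_of_le' hh
  have hk0 : (0 : ℝ) < k := by positivity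
  have hk1 : (1 : ℝ) ≤ k := by exact_mod_cast (by omega : 1 ≤ k)
  have hk2 : (2 : ℝ) ≤ k := by exact_mod_cast hk
  set b : ℝ := Real.logb 2 k with hb
  set l : ℝ := Real.logb 2 (2 * b) with hl
  have hb1 : 1 ≤ b := by
    rw [hb, Real.le_logb_iff_rpow_le (by norm_num) hk0, Real.rpow_one]
    exact hk2
  have hl1 : 1 ≤ l := by
    rw [hl, Real.le_logb_iff_rpow_le (by norm_num) (by positivity), Real.rpow_one]
    linarith
  have h2b : (2 : ℝ) ^ b = k := Real.rpow_logb (by norm_num) (by norm_num) hk0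
  have h2l : (2 : ℝ) ^ l = 2 * b := Real.rpow_logb (by norm_num) (by norm_num) (by positivity)
  set H : ℝ := ((n + 1 : ℕ) : ℝ) with hH
  have hH1 : 1 ≤ H := by rw [hH]; push_cast; linarith [(Nat.cast_nonneg n : (0 : ℝ) ≤ n)]
  set R : ℝ := Real.sqrt (H * b * l) with hR
  have hR0 : 0 < R := Real.sqrt_pos.mpr (by positivity)
  have hRR : R * R = H * b * l := Real.mul_self_sqrt (by positivity)
  set s : ℝ := R / l with hs
  have hs0 : 0 < s := by positivity
  have hsl : s * l = R := by rw [hs]; field_simp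
  have hbs : b * H / s = R := by
    rw [div_eq_iff hs0.ne', hs]
    field_simp
    nlinarith
  set μ : ℝ := min s b with hμ
  have hμ0 : 0 < μ := lt_min hs0 (by linarith)
  set D : ℕ := ⌈μ⌉₊ with hDdef
  have hDμ : μ ≤ D := Nat.le_ceil _
  have hDμ1 : (D : ℝ) < μ + 1 := Nat.ceil_lt_add_one hμ0.le
  have hD1 : 1 ≤ D := Nat.one_le_iff_ne_zero.mpr (by
    intro h0
    rw [h0] at hDμ
    simp only [Nat.cast_zero] at hDμ
    linarith)
  have hDr : (1 : ℝ) ≤ D := by exact_mod_cast hD1
  have hD0 : (0 : ℝ) < D := by linarith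
  have hDs : (D : ℝ) ≤ s + 1 := by
    have := min_le_left s b
    linarith
  have hD2b : (D : ℝ) ≤ 2 * b := by
    have := min_le_right s b
    linarith
  have hDl : (D : ℝ) ≤ (2 : ℝ) ^ l := by rw [h2l]; exact hD2b
  have hbHD : b * H / D ≤ R + H := by
    have h1 : b * H / D ≤ b * H / μ := div_le_div_of_nonneg_left (by positivity) hμ0 hDμ
    refine h1.trans ?_
    rcases min_choice s b with h2 | h2
    · rw [hμ, h2, hbs]; linarith
    · rw [hμ, h2, mul_comm, mul_div_assoc, div_self (by linarith : b ≠ 0), mul_one]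
      linarith
  obtain ⟨K, hK1, hK2, hK3, hK4⟩ := exists_root k D (by omega) hD1
  obtain ⟨N, B, hB1, hB2⟩ := exists_solver' d D k n K (by omega) hD1 (by omega) hK1 hK3
  refine ⟨N, B, hB1, ?_⟩
  have hK1' : (1 : ℝ) ≤ K := by exact_mod_cast hK1
  have hdD1 : (1 : ℝ) ≤ d * D := one_le_mul_of_one_le_of_one_le hd1 hDr
  have hbase3 : (1 : ℝ) ≤ 3 * d * D * (4 * d * D * K) := by
    have h2 : (1 : ℝ) ≤ d * D * K := one_le_mul_of_one_le_of_one_le hdD1 hK1'
    nlinarith
  have hone : (1 : ℝ) ≤ D * ((3 * d * D * (4 * d * D * K)) ^ n * k ^ d) := by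
    have h1 : (1 : ℝ) ≤ (3 * d * D * (4 * d * D * K)) ^ n := one_le_pow₀ hbase3
    have h2 : (1 : ℝ) ≤ (k : ℝ) ^ d := one_le_pow₀ hk1
    exact one_le_mul_of_one_le_of_one_le hDr (one_le_mul_of_one_le_of_one_le h1 h2)
  have hNr : (N : ℝ) ≤ (D * ((3 * d * D * (4 * d * D * K)) ^ n * k ^ d) + 1) *
      (4 * d * D * K) ^ (d * D + 1) := by exact_mod_cast hB2
  -- the factors
  have f1 : (D : ℝ) ≤ (2 : ℝ) ^ l := hDl
  have f2 : (12 * (d : ℝ) ^ 2 * D ^ 2) ^ n ≤ (2 : ℝ) ^ ((c1 + 2 * l) * n) := by
    rw [Real.rpow_mul (by norm_num), Real.rpow_natCast]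
    apply pow_le_pow_left₀ (by positivity)
    rw [Real.rpow_add (by norm_num), hc1, Real.rpow_logb (by norm_num) (by norm_num) (by positivity)]
    apply mul_le_mul_of_nonneg_left _ (by positivity)
    rw [mul_comm 2 l, Real.rpow_mul (by norm_num)]
    have : ((2 : ℝ) ^ l) ^ (2 : ℝ) = ((2 : ℝ) ^ l) ^ (2 : ℕ) := by
      rw [← Real.rpow_natCast]; norm_num
    rw [this]
    exact pow_le_pow_left₀ (by positivity) hDl 2
  have f3 : (4 * (d : ℝ) * D) ^ (d * D + 1) ≤ (2 : ℝ) ^ ((c2 + l) * (d * D + 1)) := by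
    have : ((d : ℝ) * D + 1) = ((d * D + 1 : ℕ) : ℝ) := by push_cast; ring
    rw [this, Real.rpow_mul (by norm_num), Real.rpow_natCast]
    apply pow_le_pow_left₀ (by positivity)
    rw [Real.rpow_add (by norm_num), hc2, Real.rpow_logb (by norm_num) (by norm_num) (by positivity)]
    exact mul_le_mul_of_nonneg_left hDl (by positivity)
  have f4 : (K : ℝ) ^ (n + (d * D + 1)) ≤ (k : ℝ) ^ d * (2 : ℝ) ^ (b * H / D) := by
    have e1 : (K : ℝ) ^ (n + (d * D + 1)) ≤ ((k : ℝ) ^ ((1 : ℝ) / D)) ^ (n + (d * D + 1)) :=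
      pow_le_pow_left₀ (by positivity) hK4 _
    refine e1.trans (le_of_eq ?_)
    rw [← Real.rpow_natCast, ← Real.rpow_mul hk0.le]
    have e2 : (1 : ℝ) / D * ((n + (d * D + 1) : ℕ) : ℝ) = d + H / D := by
      rw [hH]
      push_cast
      field_simp
      ring
    rw [e2, Real.rpow_add hk0, Real.rpow_natCast]
    congr 1
    rw [← h2b, ← Real.rpow_mul (by norm_num), mul_div_assoc]
  have hn : (n : ℝ) ≤ H := by rw [hH]; push_cast; linarith
  calc (N : ℝ) ≤ (D * ((3 * d * D * (4 * d * D * K)) ^ n * k ^ d) + 1) *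
        (4 * d * D * K) ^ (d * D + 1) := hNr
    _ ≤ (2 * (D * ((3 * d * D * (4 * d * D * K)) ^ n * k ^ d))) *
        (4 * d * D * K) ^ (d * D + 1) := by
          apply mul_le_mul_of_nonneg_right _ (by positivity)
          linarith
    _ = 2 * D * (12 * (d : ℝ) ^ 2 * D ^ 2) ^ n * (4 * (d : ℝ) * D) ^ (d * D + 1) *
        ((k : ℝ) ^ d * (K : ℝ) ^ (n + (d * D + 1))) := by
          rw [show (3 * (d : ℝ) * D * (4 * d * D * K)) = (12 * (d : ℝ) ^ 2 * D ^ 2) * K by ring,
            mul_pow, mul_pow (4 * (d : ℝ) * D) K, pow_add]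
          ring
    _ ≤ 2 * (2 : ℝ) ^ l * (2 : ℝ) ^ ((c1 + 2 * l) * n) * (2 : ℝ) ^ ((c2 + l) * (d * D + 1)) *
        ((k : ℝ) ^ d * ((k : ℝ) ^ d * (2 : ℝ) ^ (b * H / D))) := by
          gcongr
    _ = (k : ℝ) ^ (2 * d) * (2 : ℝ) ^ (1 + l + (c1 + 2 * l) * n + (c2 + l) * (d * D + 1) +
          b * H / D) := by
          rw [Real.rpow_add (by norm_num), Real.rpow_add (by norm_num),
            Real.rpow_add (by norm_num), Real.rpow_add (by norm_num), Real.rpow_one, two_mul d,
            pow_add]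
          ring
    _ ≤ _ := by
          apply mul_le_mul_of_nonneg_left _ (by positivity)
          apply Real.rpow_le_rpow_of_exponent_le (by norm_num)
          have hHl : H ≤ H * l := le_mul_of_one_le_right (by linarith) hl1
          have hlH : l ≤ H * l := le_mul_of_one_le_left (by linarith) hH1
          have g1 : 1 + l ≤ 2 * (H * l) := by linarith
          have g2 : (c1 + 2 * l) * n ≤ (c1 + 2) * (H * l) := by
            have : (c1 + 2 * l) ≤ (c1 + 2) * l := by
              have := le_mul_of_one_le_right hc1p hl1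
              linarith
            calc (c1 + 2 * l) * n ≤ ((c1 + 2) * l) * H := by
                  apply mul_le_mul this hn (by positivity) (by positivity)
              _ = _ := by ring
          have g3 : (c2 + l) * (d * D + 1) ≤ 2 * d * (c2 + 1) * (H * l + R) := by
            have e1 : c2 + l ≤ (c2 + 1) * l := by
              have := le_mul_of_one_le_right hc2p hl1
              linarith
            have e2 : (d : ℝ) * D + 1 ≤ 2 * d * D := by linarith
            have e3 : (D : ℝ) * l ≤ R + l := by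
              calc (D : ℝ) * l ≤ (s + 1) * l := mul_le_mul_of_nonneg_right hDs (by positivity)
                _ = R + l := by rw [add_mul, hsl, one_mul]
            have e4 : R + l ≤ H * l + R := by linarith
            calc (c2 + l) * (d * D + 1) ≤ ((c2 + 1) * l) * (2 * d * D) := by
                  apply mul_le_mul e1 e2 (by positivity) (by positivity)
              _ = 2 * d * (c2 + 1) * (D * l) := by ring
              _ ≤ 2 * d * (c2 + 1) * (H * l + R) :=
                mul_le_mul_of_nonneg_left (e3.trans e4) (by positivity)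
          have g4 : b * H / D ≤ H * l + R := by linarith
          have g5 : H * l ≤ H * l + R := by linarith
          calc 1 + l + (c1 + 2 * l) * n + (c2 + l) * (d * D + 1) + b * H / D
              ≤ 2 * (H * l) + (c1 + 2) * (H * l) + 2 * d * (c2 + 1) * (H * l + R) +
                (H * l + R) := by linarith
            _ ≤ 2 * (H * l + R) + (c1 + 2) * (H * l + R) + 2 * d * (c2 + 1) * (H * l + R) +
                (H * l + R) := by
                  have a1 : 2 * (H * l) ≤ 2 * (H * l + R) := by linarith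
                  have a2 : (c1 + 2) * (H * l) ≤ (c1 + 2) * (H * l + R) :=
                    mul_le_mul_of_nonneg_left g5 (by linarith)
                  linarith
            _ = (2 + (c1 + 2) + 2 * d * (c2 + 1) + 1) * (H * l + R) := by ring

end Pool.Agent.Helper5.TreeExp
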