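import Mathlib

/-!
# Tree evaluation and deterministic `k`-way branching programs

Definitions only.
-/

set_option autoImplicit false

namespace Pool.Agent.Helper5.TreeExp.Model

/-- The input variables of tree evaluation on a `d`-ary tree with values in `Fin k`. A node is given
by the path from it to the root: the root is `[]`, the children of the node `p` are the nodes
`i :: p`. The variable `(p, none)` is the value of the leaf `p`, the variable `(p, some x)` is the
value at `x` of the function `(Fin d → Fin k) → Fin k` of the internal node `p`. -/
abbrev Var (d k : ℕ) : Type := List (Fin d) × Option (Fin d → Fin k)

/-- The value of a node with `n` levels below it, for the input `a`. -/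
noncomputable def value {d k : ℕ} (a : Var d k → Fin k) (n : ℕ) : List (Fin d) → Fin k :=
  Nat.rec (fun p => a (p, none)) (fun _ v p => a (p, some fun i => v (i :: p))) n

/-- A deterministic `k`-way branching program with `N` states: each state either queries a variable
(and the answer determines the next state) or is final with an output. -/
structure BP (d k N : ℕ) where
  start : Fin N
  act : Fin N → (Var d k × (Fin k → Fin N)) ⊕ Fin k

/-- One step of the program on the input `a` (final states do not move). -/
def BP.step {d k N : ℕ} (B : BP d k N) (a : Var d k → Fin k) (q : Fin N) : Fin N :=
  (B.act q).elim (fun t => t.2 (a t.1)) (fun _ => q)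

/-- `B` solves tree evaluation on the complete `d`-ary tree with `h` levels: on every input it
reaches a final state whose output is the value of the root. -/
def Solves {d k N : ℕ} (h : ℕ) (B : BP d k N) : Prop :=
  ∀ a : Var d k → Fin k, ∃ m : ℕ, B.act ((B.step a)^[m] B.start) = Sum.inr (value a (h - 1) [])

end Pool.Agent.Helper5.TreeExp.Model
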