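import Pool.Agent.Helper5.TreeExp.Defs
import Pool.Agent.Helper5.TreeExp.Model

/-!
# The two models of tree evaluation agree
-/

set_option autoImplicit false

namespace Pool.Agent.Helper5.TreeExp.Bridge

open Pool.Agent.Helper5

/-- The variable of the infinite tree. -/
def emb {d k : ℕ} : (n : ℕ) → List (Fin d) → TreeExp.Var d k n → Model.Var d k
  | 0, p, _ => (p, none)
  | n + 1, p, v => v.elim (fun x => (p, some x)) (fun y => emb n (y.1 :: p) y.2)

theorem emb_inl {d k n : ℕ} (p : List (Fin d)) (x : Fin d → Fin k) :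
    emb (n + 1) p (Sum.inl x) = (p, some x) := rfl

theorem emb_inr {d k n : ℕ} (p : List (Fin d)) (i : Fin d) (v : TreeExp.Var d k n) :
    emb (n + 1) p (Sum.inr (i, v)) = emb n (i :: p) v := rfl

theorem emb_suffix {d k : ℕ} (n : ℕ) : ∀ (p : List (Fin d)) (v : TreeExp.Var d k n),
    p <:+ (emb n p v).1 := by
  induction n with
  | zero => exact fun p v => List.suffix_refl p
  | succ n ih =>
    rintro p (x | ⟨i, v⟩)
    · exact List.suffix_refl p
    · exact (List.suffix_cons i p).trans (ih (i :: p) v)

theorem emb_inj {d k : ℕ} (n : ℕ) : ∀ p : List (Fin d),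
    Function.Injective (emb (k := k) n p) := by
  induction n with
  | zero => exact fun p v w _ => Subsingleton.elim (α := Unit) v w
  | succ n ih =>
    rintro p (x | ⟨i, v⟩) (y | ⟨j, w⟩) h
    · rw [emb_inl, emb_inl] at h
      have h1 : some x = some y := congrArg Prod.snd h
      rw [Option.some.inj h1]
    · rw [emb_inl, emb_inr] at h
      have h1 := (emb_suffix n (j :: p) w).length_le
      rw [← h] at h1
      simp at h1
    · rw [emb_inl, emb_inr] at h
      have h1 := (emb_suffix n (i :: p) v).length_le
      rw [h] at h1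
      simp at h1
    · rw [emb_inr, emb_inr] at h
      have h1 := emb_suffix n (i :: p) v
      have h2 := emb_suffix n (j :: p) w
      rw [← h] at h2
      have h3 := (List.suffix_of_suffix_length_le h1 h2 (by simp)).eq_of_length (by simp)
      have h4 : i = j := (List.cons.inj h3).1
      subst h4
      rw [ih (i :: p) h]

theorem value_of {d k : ℕ} (a : Model.Var d k → Fin k) (n : ℕ) :
    ∀ (p : List (Fin d)) (T : Inst d k n), (∀ v, a (emb n p v) = ask d k n T v) →
      Model.value a n p = TreeExp.value d k n T := by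
  induction n with
  | zero => exact fun p T h => h ()
  | succ n ih =>
    intro p T h
    have hc : ∀ i, Model.value a n (i :: p) = TreeExp.value d k n (T.2 i) := fun i =>
      ih (i :: p) (T.2 i) (fun v => h (Sum.inr (i, v)))
    have h1 : Model.value a (n + 1) p = a (p, some fun i => Model.value a n (i :: p)) := rfl
    rw [h1, funext hc]
    exact h (Sum.inl _)

/-- The instance of an assignment. -/
def inst {d k : ℕ} (a : Model.Var d k → Fin k) : (n : ℕ) → List (Fin d) → Inst d k n
  | 0, p => a (p, none)
  | n + 1, p => (fun x => a (p, some x), fun i => inst a n (i :: p))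

theorem ask_inst {d k : ℕ} (a : Model.Var d k → Fin k) (n : ℕ) :
    ∀ (p : List (Fin d)) (v : TreeExp.Var d k n), a (emb n p v) = ask d k n (inst a n p) v := by
  induction n with
  | zero => exact fun p v => rfl
  | succ n ih =>
    rintro p (x | ⟨i, v⟩)
    · rfl
    · exact ih (i :: p) v

theorem nonempty_var {d k : ℕ} (hk : 0 < k) (n : ℕ) : Nonempty (TreeExp.Var d k n) := by
  cases n with
  | zero => exact ⟨()⟩
  | succ n => exact ⟨Sum.inl fun _ => ⟨0, hk⟩⟩

/-- A program for the infinite tree gives one for the finite tree. -/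
theorem down {d k h N : ℕ} (hk : 0 < k) (B : Model.BP d k N) (hB : Model.Solves h B) :
    ∃ B' : BP (TreeExp.Var d k (h - 1)) k N, TreeExp.Solves d h k B' := by
  classical
  obtain ⟨v0⟩ := nonempty_var (d := d) hk (h - 1)
  set z : Fin k := ⟨0, hk⟩ with hz
  set e : TreeExp.Var d k (h - 1) → Model.Var d k := emb (h - 1) [] with he
  set f : Fin N → (TreeExp.Var d k (h - 1) × (Fin k → Fin N)) ⊕ Fin k := fun s =>
    (B.act s).elim (fun t => if hw : ∃ w, e w = t.1 then Sum.inl (hw.choose, t.2)
      else Sum.inl (v0, fun _ => t.2 z)) Sum.inr with hf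
  refine ⟨⟨B.start, f⟩, fun T => ?_⟩
  set a : Model.Var d k → Fin k := Function.extend e (ask d k (h - 1) T) (fun _ => z) with ha
  have hae : ∀ v, a (e v) = ask d k (h - 1) T v := fun v => (emb_inj (h - 1) []).extend_apply _ _ v
  have hstep : BP.step ⟨B.start, f⟩ (ask d k (h - 1) T) = B.step a := by
    funext s
    unfold BP.step Model.BP.step
    simp only [hf]
    rcases B.act s with t | o
    · simp only [Sum.elim_inl]
      by_cases hw : ∃ w, e w = t.1
      · rw [dif_pos hw, Sum.elim_inl, ← hae, hw.choose_spec]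
      · rw [dif_neg hw, Sum.elim_inl, ha, Function.extend_apply' _ _ _ hw]
    · simp only [Sum.elim_inr]
  obtain ⟨m, hm⟩ := hB a
  refine ⟨m, ?_⟩
  rw [hstep]
  show f ((B.step a)^[m] B.start) = _
  simp only [hf]
  rw [hm, Sum.elim_inr, value_of a (h - 1) [] T hae]

/-- A program for the finite tree gives one for the infinite tree. -/
theorem up {d k h N : ℕ} (B : BP (TreeExp.Var d k (h - 1)) k N) (hB : TreeExp.Solves d h k B) :
    ∃ B' : Model.BP d k N, Model.Solves h B' := by
  set e : TreeExp.Var d k (h - 1) → Model.Var d k := emb (h - 1) [] with he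
  set f : Fin N → (Model.Var d k × (Fin k → Fin N)) ⊕ Fin k := fun s =>
    (B.act s).elim (fun t => Sum.inl (e t.1, t.2)) Sum.inr with hf
  refine ⟨⟨B.start, f⟩, fun a => ?_⟩
  set T := inst a (h - 1) [] with hT
  have hae : ∀ v, a (e v) = ask d k (h - 1) T v := ask_inst a (h - 1) []
  have hstep : Model.BP.step ⟨B.start, f⟩ a = B.step (ask d k (h - 1) T) := by
    funext s
    unfold BP.step Model.BP.step
    simp only [hf]
    rcases B.act s with t | o
    · simp only [Sum.elim_inl]
      rw [hae]
    · simp only [Sum.elim_inr]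
  obtain ⟨m, hm⟩ := hB T
  refine ⟨m, ?_⟩
  rw [hstep]
  show f ((B.step (ask d k (h - 1) T))^[m] B.start) = _
  simp only [hf]
  rw [hm, Sum.elim_inr, value_of a (h - 1) [] T hae]

end Pool.Agent.Helper5.TreeExp.Bridge
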