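import Pool.Agent.Helper5.TreeExp.Defs

namespace Pool.Agent.Helper5.TreeExp

open Function

section Abstract

variable {V A P : Type} {k N K : ℕ}

/-- final or relevant states -/
def Stop (B : BP V k N) (rel : V → Option A) (q : Fin N) : Prop :=
  (∃ o, B.act q = Sum.inr o) ∨ (∃ u nx a, B.act q = Sum.inl (u, nx) ∧ rel u = some a)

open Classical in
noncomputable def skipStep (B : BP V k N) (rel : V → Option A) (J : V → Fin k) (q : Fin N) :
    Fin N := if Stop B rel q then q else B.step J q

open Classical in
noncomputable def skip (B : BP V k N) (rel : V → Option A) (J : V → Fin k) (q : Fin N) :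
    Fin N :=
  if h : ∃ s, Stop B rel s ∧ ∃ n, (skipStep B rel J)^[n] q = s then h.choose else q

theorem skipStep_stop (B : BP V k N) (rel : V → Option A) (J : V → Fin k) {q : Fin N}
    (h : Stop B rel q) : skipStep B rel J q = q := by
  simp [skipStep, h]

theorem iter_stop (B : BP V k N) (rel : V → Option A) (J : V → Fin k) {q : Fin N}
    (h : Stop B rel q) (n : ℕ) : (skipStep B rel J)^[n] q = q :=
  iterate_fixed (skipStep_stop B rel J h) n

theorem stop_unique (B : BP V k N) (rel : V → Option A) (J : V → Fin k) {q s s' : Fin N}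
    (hs : Stop B rel s) (hs' : Stop B rel s') {n n' : ℕ}
    (h : (skipStep B rel J)^[n] q = s) (h' : (skipStep B rel J)^[n'] q = s') : s = s' := by
  rcases le_total n n' with hle | hle
  · obtain ⟨e, rfl⟩ := Nat.exists_eq_add_of_le hle
    rw [Nat.add_comm, iterate_add_apply, h, iter_stop B rel J hs] at h'
    exact h'
  · obtain ⟨e, rfl⟩ := Nat.exists_eq_add_of_le hle
    rw [Nat.add_comm, iterate_add_apply, h', iter_stop B rel J hs'] at h
    exact h.symm

theorem skip_eq (B : BP V k N) (rel : V → Option A) (J : V → Fin k) {q s : Fin N}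
    (hs : Stop B rel s) {n : ℕ} (h : (skipStep B rel J)^[n] q = s) : skip B rel J q = s := by
  have hex : ∃ s, Stop B rel s ∧ ∃ n, (skipStep B rel J)^[n] q = s := ⟨s, hs, n, h⟩
  unfold skip
  rw [dif_pos hex]
  obtain ⟨h1, n1, h2⟩ := hex.choose_spec
  exact stop_unique B rel J h1 hs h2 h

theorem lemA (B : BP V k N) (rel : V → Option A) (I J : V → Fin k)
    (hIJ : ∀ u, rel u = none → I u = J u) (o : Fin k) (m : ℕ) :
    ∀ q : Fin N, B.act ((B.step I)^[m] q) = Sum.inr o →
      Stop B rel (skip B rel J q) ∧ (∃ n, (skipStep B rel J)^[n] q = skip B rel J q) ∧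
      ∃ m', m' ≤ m ∧ B.act ((B.step I)^[m'] (skip B rel J q)) = Sum.inr o := by
  induction m with
  | zero =>
    intro q hq
    have hs : Stop B rel q := Or.inl ⟨o, hq⟩
    have := skip_eq B rel J hs (n := 0) rfl
    rw [this]
    exact ⟨hs, ⟨0, rfl⟩, 0, le_rfl, hq⟩
  | succ m ih =>
    intro q hq
    by_cases hs : Stop B rel q
    · have := skip_eq B rel J hs (n := 0) rfl
      rw [this]
      exact ⟨hs, ⟨0, rfl⟩, m + 1, le_rfl, hq⟩
    · rw [iterate_succ_apply] at hq
      obtain ⟨h1, ⟨n, h2⟩, m', h3, h4⟩ := ih _ hq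
      have hstep : skipStep B rel J q = B.step I q := by
        unfold skipStep
        rw [if_neg hs]
        unfold BP.step
        cases hact : B.act q with
        | inr o' => rfl
        | inl t =>
          have hn : rel t.1 = none := by
            by_contra hne
            obtain ⟨a, ha⟩ := Option.ne_none_iff_exists'.mp hne
            exact hs (Or.inr ⟨t.1, t.2, a, hact, ha⟩)
          simp [hIJ t.1 hn]
      have h5 : (skipStep B rel J)^[n + 1] q = skip B rel J (B.step I q) := by
        rw [iterate_succ_apply, hstep, h2]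
      have h6 := skip_eq B rel J h1 h5
      rw [h6]
      exact ⟨h1, ⟨n + 1, h5⟩, m', by omega, h4⟩

/-- relevant states -/
def RelSt (B : BP V k N) (rel : V → Option A) : Type :=
  {q : Fin N // ∃ u nx a, B.act q = Sum.inl (u, nx) ∧ rel u = some a}

open Classical in
noncomputable instance (B : BP V k N) (rel : V → Option A) : Fintype (RelSt B rel) := by
  unfold RelSt; infer_instance

/-- the move from a relevant state on a given answer -/
def mv (B : BP V k N) (q : Fin N) (x : Fin k) : Fin N :=
  (B.act q).elim (fun t => t.2 x) (fun _ => q)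

theorem out_eq (B : BP V k N) (rel : V → Option A) (emb : Fin K → Fin k)
    (v : A → Fin K) (I I' J J' : V → Fin k)
    (hI : ∀ u a, rel u = some a → I u = emb (v a))
    (hI' : ∀ u a, rel u = some a → I' u = emb (v a))
    (hIJ : ∀ u, rel u = none → I u = J u) (hIJ' : ∀ u, rel u = none → I' u = J' u)
    (hT : ∀ (q : RelSt B rel) (w : Fin K),
      skip B rel J (mv B q.1 (emb w)) = skip B rel J' (mv B q.1 (emb w)))
    (o o' : Fin k) (m : ℕ) :
    ∀ q q' : Fin N, skip B rel J q = skip B rel J' q' →
      B.act ((B.step I)^[m] q) = Sum.inr o →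
      (∃ m', B.act ((B.step I')^[m'] q') = Sum.inr o') → o = o' := by
  induction m using Nat.strong_induction_on with
  | _ m ih =>
    intro q q' hqq hq hq'
    obtain ⟨m2, hq'⟩ := hq'
    obtain ⟨h1, -, m1, h3, h4⟩ := lemA B rel I J hIJ o m q hq
    obtain ⟨-, -, m1', h3', h4'⟩ := lemA B rel I' J' hIJ' o' m2 q' hq'
    rw [← hqq] at h4'
    generalize hs : skip B rel J q = s at *
    rcases h1 with ⟨o2, ho2⟩ | ⟨u, nx, a, hact, hrel⟩
    · have e1 : (B.step I)^[m1] s = s := iterate_fixed (by simp [BP.step, ho2]) _
      have e2 : (B.step I')^[m1'] s = s := iterate_fixed (by simp [BP.step, ho2]) _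
      rw [e1, ho2] at h4
      rw [e2, ho2] at h4'
      exact (Sum.inr.inj h4).symm.trans (Sum.inr.inj h4')
    · have hstep : B.step I s = mv B s (emb (v a)) := by
        simp [BP.step, mv, hact, hI u a hrel]
      have hstep' : B.step I' s = mv B s (emb (v a)) := by
        simp [BP.step, mv, hact, hI' u a hrel]
      cases m1 with
      | zero => simp [hact] at h4
      | succ m1 =>
        cases m1' with
        | zero => simp [hact] at h4'
        | succ m1' =>
          rw [iterate_succ_apply, hstep] at h4
          rw [iterate_succ_apply, hstep'] at h4'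
          exact ih m1 (by omega) _ _ (hT ⟨s, u, nx, a, hact, hrel⟩ (v a)) h4 ⟨m1', h4'⟩

/-- **Counting bound** for a family of inputs. -/
theorem count [Fintype P] (B : BP V k N) (rel : V → Option A) (emb : Fin K → Fin k)
    (I : P → (A → Fin K) → V → Fin k) (J : P → V → Fin k) (out : P → (A → Fin K) → Fin k)
    (h1 : ∀ r v u a, rel u = some a → I r v u = emb (v a))
    (h2 : ∀ r v u, rel u = none → I r v u = J r u)
    (h3 : ∀ r v, B.Outputs (I r v) (out r v))
    (h4 : ∀ r r', (∀ v, out r v = out r' v) → r = r') :
    Fintype.card P ≤ N ^ (1 + K * Fintype.card (RelSt B rel)) := by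
  classical
  let F : P → Fin N × (RelSt B rel → Fin K → Fin N) := fun r =>
    (skip B rel (J r) B.start, fun q w => skip B rel (J r) (mv B q.1 (emb w)))
  have hF : Function.Injective F := by
    intro r r' hrr
    apply h4
    intro v
    have e1 : skip B rel (J r) B.start = skip B rel (J r') B.start := congrArg Prod.fst hrr
    have e2 : ∀ (q : RelSt B rel) (w : Fin K),
        skip B rel (J r) (mv B q.1 (emb w)) = skip B rel (J r') (mv B q.1 (emb w)) := by
      intro q w
      exact congrFun (congrFun (congrArg Prod.snd hrr) q) w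
    obtain ⟨m, hm⟩ := h3 r v
    exact out_eq B rel emb v (I r v) (I r' v) (J r) (J r') (h1 r v) (h1 r' v) (h2 r v) (h2 r' v)
      e2 _ _ m B.start B.start e1 hm (h3 r' v)
  have := Fintype.card_le_of_injective F hF
  simp only [Fintype.card_prod, Fintype.card_fin, Fintype.card_fun] at this
  calc Fintype.card P ≤ _ := this
    _ = N ^ (1 + K * Fintype.card (RelSt B rel)) := by
      rw [← pow_mul, pow_add, pow_one]

end Abstract

end Pool.Agent.Helper5.TreeExp
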