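import Mathlib

/-!
Tree evaluation on complete `d`-ary trees and deterministic `k`-way branching programs.
-/

namespace Pool.Agent.Helper5.TreeExp

/-- An instance of tree evaluation on the complete `d`-ary tree with `n + 1` levels: a value in
`Fin k` at each leaf, a function `(Fin d → Fin k) → Fin k` at each internal node. -/
def Inst (d k : ℕ) : ℕ → Type
  | 0 => Fin k
  | n + 1 => ((Fin d → Fin k) → Fin k) × (Fin d → Inst d k n)

/-- The value of the root. -/
def value (d k : ℕ) : (n : ℕ) → Inst d k n → Fin k
  | 0, a => a
  | n + 1, T => T.1 (fun c => value d k n (T.2 c))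

/-- The input variables: the value of a leaf, or an entry of the table of the function of an
internal node. -/
def Var (d k : ℕ) : ℕ → Type
  | 0 => Unit
  | n + 1 => (Fin d → Fin k) ⊕ (Fin d × Var d k n)

/-- The value of an input variable. -/
def ask (d k : ℕ) : (n : ℕ) → Inst d k n → Var d k n → Fin k
  | 0, a, _ => a
  | n + 1, T, v => v.elim (fun x => T.1 x) (fun y => ask d k n (T.2 y.1) y.2)

/-- A deterministic `k`-way branching program with `N` states over the variables `V`: each state
either queries a variable (and moves according to the answer) or is final with an output. -/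
structure BP (V : Type) (k N : ℕ) where
  start : Fin N
  act : Fin N → (V × (Fin k → Fin N)) ⊕ Fin k

/-- One step of the program on the input `I` (final states do not move). -/
def BP.step {V : Type} {k N : ℕ} (B : BP V k N) (I : V → Fin k) (q : Fin N) : Fin N :=
  (B.act q).elim (fun t => t.2 (I t.1)) (fun _ => q)

/-- The computation on the input `I` reaches a final state with output `o`. -/
def BP.Outputs {V : Type} {k N : ℕ} (B : BP V k N) (I : V → Fin k) (o : Fin k) : Prop :=
  ∃ m : ℕ, B.act ((B.step I)^[m] B.start) = Sum.inr o

/-- `B` solves tree evaluation on the complete `d`-ary tree with `h` levels. -/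
def Solves (d h k : ℕ) {N : ℕ} (B : BP (Var d k (h - 1)) k N) : Prop :=
  ∀ T : Inst d k (h - 1), B.Outputs (ask d k (h - 1) T) (value d k (h - 1) T)

end Pool.Agent.Helper5.TreeExp
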