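import Pool.Agent.Helper5.TreeExp.Count

namespace Pool.Agent.Helper5.TreeExp

open Function

/-- addresses of the nodes whose children are leaves -/
def Addr (d : ℕ) : ℕ → Type
  | 0 => Unit
  | t + 1 => Fin d × Addr d t

/-- the relevant variables: the entry at `c0` of the tables of the parents of the leaves -/
def relv {d k : ℕ} (c0 : Fin d → Fin k) : (t : ℕ) → Var d k (t + 1) → Option (Addr d t)
  | 0, u => Sum.elim (fun x => if x = c0 then some () else none) (fun _ => none) u
  | t + 1, u => Sum.elim (fun _ => none)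
      (fun y => (relv c0 t y.2).map (fun a => ((y.1, a) : Fin d × Addr d t))) u

theorem relv_succ_some {d k : ℕ} (c0 : Fin d → Fin k) (t : ℕ) (y : Fin d × Var d k (t + 1))
    (a : Addr d (t + 1)) (h : relv c0 (t + 1) (Sum.inr y) = some a) :
    ∃ b : Addr d t, relv c0 t y.2 = some b ∧ a = (y.1, b) := by
  have h' : (relv c0 t y.2).map (fun a => ((y.1, a) : Fin d × Addr d t)) = some a := h
  obtain ⟨b, hb, e⟩ := Option.map_eq_some_iff.mp h'
  exact ⟨b, hb, e.symm⟩

theorem relv_succ_none {d k : ℕ} (c0 : Fin d → Fin k) (t : ℕ) (y : Fin d × Var d k (t + 1))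
    (h : relv c0 (t + 1) (Sum.inr y) = none) : relv c0 t y.2 = none := by
  have h' : (relv c0 t y.2).map (fun a => ((y.1, a) : Fin d × Addr d t)) = none := h
  exact Option.map_eq_none_iff.mp h'

theorem relv_inj {d k : ℕ} (c0 c1 : Fin d → Fin k) : ∀ (t : ℕ) (u : Var d k (t + 1))
    (a a' : Addr d t), relv c0 t u = some a → relv c1 t u = some a' → c0 = c1 := by
  intro t
  induction t with
  | zero =>
    intro u a a' h h'
    rcases u with x | y
    · simp only [relv, Sum.elim_inl] at h h'
      by_cases hx : x = c0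
      · by_cases hx' : x = c1
        · exact hx.symm.trans hx'
        · rw [if_neg hx'] at h'; exact absurd h' (by simp)
      · rw [if_neg hx] at h; exact absurd h (by simp)
    · simp [relv] at h
  | succ t ih =>
    intro u a a' h h'
    rcases u with x | y
    · simp [relv] at h
    · obtain ⟨b, hb, -⟩ := relv_succ_some _ _ _ _ h
      obtain ⟨b', hb', -⟩ := relv_succ_some _ _ _ _ h'
      exact ih _ _ _ hb hb'

/-- the sizes of the alphabets (they grow on the first `τ` levels only) -/
def kap (d K τ : ℕ) : ℕ → ℕ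
  | 0 => K
  | t + 1 => if t < τ then kap d K τ t ^ d else kap d K τ t

theorem kap_eq (d K τ t : ℕ) : kap d K τ t = K ^ (d ^ (min t τ)) := by
  induction t with
  | zero => simp [kap]
  | succ t ih =>
    rw [kap, ih]
    split_ifs with h
    · rw [min_eq_left h.le, min_eq_left (by omega : t + 1 ≤ τ), ← pow_mul, pow_succ]
    · rw [min_eq_right (by omega), min_eq_right (by omega)]

open Classical in
/-- combination of `d` values below `κ` -/
noncomputable def comb {d k : ℕ} (κ : ℕ) (z : Fin k) (x : Fin d → Fin k) : Fin k :=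
  if h : (∀ c, (x c : ℕ) < κ) ∧ κ ^ d ≤ k then
    ⟨finFunctionFinEquiv (fun c => (⟨x c, h.1 c⟩ : Fin κ)), lt_of_lt_of_le (Fin.is_lt _) h.2⟩
  else z

/-- instances below the root -/
noncomputable def fam {d k K : ℕ} (τ : ℕ) (i0 : Fin d) (c0 : Fin d → Fin k) (z : Fin k)
    (emb : Fin K → Fin k) : (t : ℕ) → (Addr d t → Fin K) → Inst d k (t + 1)
  | 0, v => (fun x => if x = c0 then emb (v ()) else z, c0)
  | t + 1, v => (fun x => if t < τ then comb (kap d K τ t) z x else x i0,
      fun c => fam τ i0 c0 z emb t (fun a => v (c, a)))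

theorem fam_rel {d k K : ℕ} (τ : ℕ) (i0 : Fin d) (c0 : Fin d → Fin k) (z : Fin k) (emb : Fin K → Fin k) :
    ∀ (t : ℕ) (v : Addr d t → Fin K) (u : Var d k (t + 1)) (a : Addr d t),
      relv c0 t u = some a → ask d k (t + 1) (fam τ i0 c0 z emb t v) u = emb (v a) := by
  intro t
  induction t with
  | zero =>
    intro v u a h
    rcases u with x | y
    · simp only [relv, Sum.elim_inl] at h
      by_cases hx : x = c0
      · simp [ask, fam, hx]
        rfl
      · rw [if_neg hx] at h; exact absurd h (by simp)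
    · simp [relv] at h
  | succ t ih =>
    intro v u a h
    rcases u with x | y
    · simp [relv] at h
    · obtain ⟨b, hb, rfl⟩ := relv_succ_some _ _ _ _ h
      have := ih (fun a => v (y.1, a)) y.2 b hb
      simpa [ask, fam] using this

theorem fam_irr {d k K : ℕ} (τ : ℕ) (i0 : Fin d) (c0 : Fin d → Fin k) (z : Fin k) (emb : Fin K → Fin k) :
    ∀ (t : ℕ) (v v' : Addr d t → Fin K) (u : Var d k (t + 1)),
      relv c0 t u = none →
      ask d k (t + 1) (fam τ i0 c0 z emb t v) u = ask d k (t + 1) (fam τ i0 c0 z emb t v') u := by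
  intro t
  induction t with
  | zero =>
    intro v v' u h
    rcases u with x | y
    · simp only [relv, Sum.elim_inl] at h
      by_cases hx : x = c0
      · rw [if_pos hx] at h; exact absurd h (by simp)
      · simp [ask, fam, hx]
    · simp [ask, fam]
  | succ t ih =>
    intro v v' u h
    rcases u with x | y
    · simp [ask, fam]
    · replace h := relv_succ_none _ _ _ h
      have := ih (fun a => v (y.1, a)) (fun a => v' (y.1, a)) y.2 h
      simpa [ask, fam] using this

theorem comb_eq {d k : ℕ} (κ : ℕ) (z : Fin k) (hκ : κ ^ d ≤ k) (y : Fin (κ ^ d))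
    (x : Fin d → Fin k) (hx : ∀ c, (x c : ℕ) = (finFunctionFinEquiv.symm y c : Fin κ)) :
    (comb κ z x : ℕ) = y := by
  have h : (∀ c, (x c : ℕ) < κ) ∧ κ ^ d ≤ k := ⟨fun c => by rw [hx c]; exact Fin.is_lt _, hκ⟩
  unfold comb
  rw [dif_pos h]
  have : (fun c => (⟨x c, h.1 c⟩ : Fin κ)) = finFunctionFinEquiv.symm y := by
    funext c
    exact Fin.ext (hx c)
  simp [this]

theorem fam_surj {d k K : ℕ} (τ : ℕ) (i0 : Fin d) (c0 : Fin d → Fin k) (z : Fin k) (emb : Fin K → Fin k)
    (hemb : ∀ w, (emb w : ℕ) = w) :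
    ∀ (t : ℕ), (∀ i ≤ t, kap d K τ i ≤ k) → ∀ y : Fin (kap d K τ t), ∃ v : Addr d t → Fin K,
      (value d k (t + 1) (fam τ i0 c0 z emb t v) : ℕ) = y := by
  intro t
  induction t with
  | zero =>
    intro _ y
    have hy : ∀ y' : Fin K, ((if c0 = c0 then emb y' else z : Fin k) : ℕ) = y' := by
      intro y'
      rw [if_pos rfl, hemb]
    exact ⟨fun _ => y, hy y⟩
  | succ t ih =>
    intro hk y
    have ih' := ih (fun i hi => hk i (by omega))
    choose w hw using ih'
    by_cases hlt : t < τ
    · have hkap : kap d K τ (t + 1) = kap d K τ t ^ d := by rw [kap, if_pos hlt]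
      have hle : kap d K τ t ^ d ≤ k := hkap ▸ hk (t + 1) le_rfl
      let y' : Fin (kap d K τ t ^ d) := Fin.cast hkap y
      let dig : Fin d → Fin (kap d K τ t) := finFunctionFinEquiv.symm y'
      refine ⟨fun a => w (dig a.1) a.2, ?_⟩
      have hv : value d k (t + 1 + 1) (fam τ i0 c0 z emb (t + 1) (fun a => w (dig a.1) a.2)) =
          if t < τ then
            comb (kap d K τ t) z (fun c => value d k (t + 1) (fam τ i0 c0 z emb t (w (dig c))))
          else value d k (t + 1) (fam τ i0 c0 z emb t (w (dig i0))) := rfl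
      rw [hv, if_pos hlt]
      exact comb_eq _ z hle y' _ (fun c => hw (dig c))
    · have hkap : kap d K τ (t + 1) = kap d K τ t := by rw [kap, if_neg hlt]
      let y' : Fin (kap d K τ t) := Fin.cast hkap y
      refine ⟨fun a => w y' a.2, ?_⟩
      have hv : value d k (t + 1 + 1) (fam τ i0 c0 z emb (t + 1) (fun a => w y' a.2)) =
          if t < τ then
            comb (kap d K τ t) z (fun _ => value d k (t + 1) (fam τ i0 c0 z emb t (w y')))
          else value d k (t + 1) (fam τ i0 c0 z emb t (w y')) := rfl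
      rw [hv, if_neg hlt]
      exact hw y'

open Classical in
/-- the root table -/
noncomputable def rootT {d k : ℕ} (κ : ℕ) (z : Fin k) (r : (Fin d → Fin κ) → Fin k)
    (x : Fin d → Fin k) : Fin k :=
  if h : ∀ c, (x c : ℕ) < κ then r (fun c => ⟨x c, h c⟩) else z

/-- the full instances -/
noncomputable def inst {d k K : ℕ} (τ : ℕ) (i0 : Fin d) (c0 : Fin d → Fin k) (z : Fin k) (emb : Fin K → Fin k)
    (t : ℕ) (r : (Fin d → Fin (kap d K τ t)) → Fin k) (v : Addr d (t + 1) → Fin K) :
    Inst d k (t + 2) :=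
  (rootT (kap d K τ t) z r, fun c => fam τ i0 c0 z emb t (fun a => v (c, a)))

theorem inst_rel {d k K : ℕ} (τ : ℕ) (i0 : Fin d) (c0 : Fin d → Fin k) (z : Fin k) (emb : Fin K → Fin k)
    (t : ℕ) (r : (Fin d → Fin (kap d K τ t)) → Fin k) (v : Addr d (t + 1) → Fin K)
    (u : Var d k (t + 2)) (a : Addr d (t + 1)) (h : relv c0 (t + 1) u = some a) :
    ask d k (t + 2) (inst τ i0 c0 z emb t r v) u = emb (v a) := by
  rcases u with x | y
  · simp [relv] at h
  · obtain ⟨b, hb, rfl⟩ := relv_succ_some _ _ _ _ h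
    have := fam_rel τ i0 c0 z emb t (fun a => v (y.1, a)) y.2 b hb
    simpa [ask, inst] using this

theorem inst_irr {d k K : ℕ} (τ : ℕ) (i0 : Fin d) (c0 : Fin d → Fin k) (z : Fin k) (emb : Fin K → Fin k)
    (t : ℕ) (r : (Fin d → Fin (kap d K τ t)) → Fin k) (v v' : Addr d (t + 1) → Fin K)
    (u : Var d k (t + 2)) (h : relv c0 (t + 1) u = none) :
    ask d k (t + 2) (inst τ i0 c0 z emb t r v) u = ask d k (t + 2) (inst τ i0 c0 z emb t r v') u := by
  rcases u with x | y
  · simp [ask, inst]
  · replace h := relv_succ_none _ _ _ h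
    have := fam_irr τ i0 c0 z emb t (fun a => v (y.1, a)) (fun a => v' (y.1, a)) y.2 h
    simpa [ask, inst] using this

theorem inst_inj {d k K : ℕ} (τ : ℕ) (i0 : Fin d) (c0 : Fin d → Fin k) (z : Fin k) (emb : Fin K → Fin k)
    (hemb : ∀ w, (emb w : ℕ) = w) (t : ℕ) (hk : ∀ i ≤ t, kap d K τ i ≤ k)
    (r r' : (Fin d → Fin (kap d K τ t)) → Fin k)
    (h : ∀ v, value d k (t + 2) (inst τ i0 c0 z emb t r v) =
      value d k (t + 2) (inst τ i0 c0 z emb t r' v)) : r = r' := by
  funext y
  have hs := fam_surj τ i0 c0 z emb hemb t hk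
  choose w hw using hs
  have key : ∀ r : (Fin d → Fin (kap d K τ t)) → Fin k,
      value d k (t + 2) (inst τ i0 c0 z emb t r (fun a => w (y a.1) a.2)) = r y := by
    intro r
    have hv : value d k (t + 2) (inst τ i0 c0 z emb t r (fun a => w (y a.1) a.2)) =
        rootT (kap d K τ t) z r (fun c => value d k (t + 1) (fam τ i0 c0 z emb t (w (y c)))) := rfl
    rw [hv]
    have hc : ∀ c, ((value d k (t + 1) (fam τ i0 c0 z emb t (w (y c))) : Fin k) : ℕ) <
        kap d K τ t := fun c => by rw [hw]; exact Fin.is_lt _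
    unfold rootT
    rw [dif_pos hc]
    congr 1
    funext c
    exact Fin.ext (hw (y c))
  rw [← key r, ← key r', h]

/-- the counting bound for one address -/
theorem count_tree {d k K t N : ℕ} (τ : ℕ) (i0 : Fin d) (B : BP (Var d k (t + 2)) k N)
    (hB : ∀ T : Inst d k (t + 2), B.Outputs (ask d k (t + 2) T) (value d k (t + 2) T))
    (hK : 1 ≤ K) (hKk : ∀ i ≤ t, kap d K τ i ≤ k) (c0 : Fin d → Fin k) :
    k ^ (kap d K τ t ^ d) ≤ N ^ (1 + K * Fintype.card (RelSt B (relv c0 (t + 1)))) := by
  have hKk0 : K ≤ k := hKk 0 (Nat.zero_le _)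
  let emb : Fin K → Fin k := fun w => ⟨w, lt_of_lt_of_le w.2 hKk0⟩
  let z : Fin k := ⟨0, by omega⟩
  let v0 : Addr d (t + 1) → Fin K := fun _ => ⟨0, by omega⟩
  have := count (P := (Fin d → Fin (kap d K τ t)) → Fin k) B (relv c0 (t + 1)) emb
    (fun r v => ask d k (t + 2) (inst τ i0 c0 z emb t r v))
    (fun r => ask d k (t + 2) (inst τ i0 c0 z emb t r v0))
    (fun r v => value d k (t + 2) (inst τ i0 c0 z emb t r v))
    (fun r v u a h => inst_rel τ i0 c0 z emb t r v u a h)
    (fun r v u h => inst_irr τ i0 c0 z emb t r v v0 u h)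
    (fun r v => hB _)
    (fun r r' h => inst_inj τ i0 c0 z emb (fun _ => rfl) t hKk r r' h)
  simpa using this

/-- averaging over the addresses -/
theorem exists_addr {d k t N : ℕ} (hk : 1 ≤ k) (B : BP (Var d k (t + 2)) k N) :
    ∃ c0 : Fin d → Fin k, k ^ d * Fintype.card (RelSt B (relv c0 (t + 1))) ≤ N := by
  classical
  have : Nonempty (Fin k) := ⟨⟨0, hk⟩⟩
  by_contra hcon
  push Not at hcon
  have hsum : ∑ c0 : Fin d → Fin k, Fintype.card (RelSt B (relv c0 (t + 1))) ≤ N := by
    rw [← Fintype.card_sigma]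
    have : Function.Injective
        (fun x : (Σ c0 : Fin d → Fin k, RelSt B (relv c0 (t + 1))) => x.2.1) := by
      rintro ⟨c0, q, u, nx, a, hact, hrel⟩ ⟨c1, q', u', nx', a', hact', hrel'⟩ h
      simp only at h
      subst h
      rw [hact] at hact'
      have hu : u = u' := congrArg Prod.fst (Sum.inl.inj hact')
      subst hu
      have := relv_inj c0 c1 (t + 1) u a a' hrel hrel'
      subst this
      rfl
    have := Fintype.card_le_of_injective _ this
    simpa using this
  obtain ⟨cm, -, hcm⟩ := Finset.exists_min_image (Finset.univ : Finset (Fin d → Fin k))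
    (fun c0 => Fintype.card (RelSt B (relv c0 (t + 1)))) ⟨fun _ => ⟨0, hk⟩, Finset.mem_univ _⟩
  have h1 : (Finset.univ : Finset (Fin d → Fin k)).card *
      Fintype.card (RelSt B (relv cm (t + 1))) ≤
      ∑ c0 : Fin d → Fin k, Fintype.card (RelSt B (relv c0 (t + 1))) := by
    rw [← smul_eq_mul]
    exact Finset.card_nsmul_le_sum _ _ _ (fun c _ => hcm c (Finset.mem_univ _))
  have h2 := hcon cm
  simp only [Finset.card_univ, Fintype.card_fun, Fintype.card_fin] at h1
  omega

end Pool.Agent.Helper5.TreeExp
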