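import Pool.Agent.Helper5.TreeExp.Slp

namespace Pool.Agent.Helper5.TreeExp

open Polynomial

section rec

variable {F : Type} [Field F] [Fintype F] [DecidableEq F] {d D k s : ℕ}

/-- memory coordinates -/
abbrev Idx (d D : ℕ) : Type := Option (Fin d × Fin D)

/-- the coordinates different from `i` -/
def skipC {d D : ℕ} (i : Idx d D) (x : Fin d × Fin D) : Idx d D :=
  if some x = i then none else some x

theorem skipC_ne {d D : ℕ} (i : Idx d D) (x : Fin d × Fin D) : skipC i x ≠ i := by
  unfold skipC
  split_ifs with h
  · rw [← h]; simp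
  · exact h

theorem skipC_inj {d D : ℕ} (i : Idx d D) : Function.Injective (skipC i) := by
  intro x y h
  unfold skipC at h
  split_ifs at h with h1 h2 h2
  · exact Option.some_injective _ (h1.trans h2.symm)
  · exact Option.some_injective _ h

/-- lengths -/
def len (d D k q : ℕ) : ℕ → ℕ
  | 0 => 1
  | n + 1 => q * (2 * (d * D * len d D k q n) + k ^ d)

theorem step (V : Type) (R : (V → Fin k) → Fin k → Prop) (L : ℕ)
    (ℓ : Fin s → F[X]) (pt : Fin s → F) (δ : ℕ)
    (hdeg : ∀ c, (ℓ c).natDegree ≤ δ) (hev : ∀ c c', (ℓ c).eval (pt c') = if c = c' then 1 else 0)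
    (dig : Fin k → Fin D → Fin s) (hdig : Function.Injective dig)
    (hδ : d * D * δ < Fintype.card F - 1)
    (ih : ∀ (i : Idx d D) (φ : Fin k → F), ∃ P : List (V × (Fin k → (Idx d D → F) → (Idx d D → F))),
      P.length ≤ L ∧ ∀ J b, R J b → ∀ w, run J P w = w + Pi.single i (φ b))
    (i : Idx d D) (φ : Fin k → F) :
    ∃ P : List (((Fin d → Fin k) ⊕ (Fin d × V)) × (Fin k → (Idx d D → F) → (Idx d D → F))),
      P.length ≤ Fintype.card F * (2 * (d * D * L) + k ^ d) ∧
      ∀ (f : (Fin d → Fin k) → Fin k) (J : Fin d → V → Fin k) (b : Fin d → Fin k),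
        (∀ c, R (J c) (b c)) → ∀ w,
          run (Sum.elim f (fun y => J y.1 y.2)) P w = w + Pi.single i (φ (f b)) := by
  classical
  choose G hG1 hG2 using ih
  -- calls on the children
  let call : (Fin k → Fin D → F) →
      List (((Fin d → Fin k) ⊕ (Fin d × V)) × (Fin k → (Idx d D → F) → (Idx d D → F))) :=
    fun ψ => (Finset.univ : Finset (Fin d × Fin D)).toList.flatMap (fun y =>
      (G (skipC i y) (fun a => ψ a y.2)).map (fun x => (Sum.inr (y.1, x.1), x.2)))
  have hcall_len : ∀ ψ, (call ψ).length ≤ d * D * L := by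
    intro ψ
    have := length_flatMap_le (Finset.univ : Finset (Fin d × Fin D)).toList (fun y =>
      (G (skipC i y) (fun a => ψ a y.2)).map
        (fun x => ((Sum.inr (y.1, x.1) : (Fin d → Fin k) ⊕ (Fin d × V)), x.2)))
      L (fun y _ => by rw [List.length_map]; exact hG1 _ _)
    refine this.trans ?_
    rw [Finset.length_toList]
    simp
  have hcall : ∀ ψ (f : (Fin d → Fin k) → Fin k) (J : Fin d → V → Fin k) (b : Fin d → Fin k),
      (∀ c, R (J c) (b c)) → ∀ w : Idx d D → F,
      run (Sum.elim f (fun y => J y.1 y.2)) (call ψ) w =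
        w + ∑ y : Fin d × Fin D, Pi.single (skipC i y) (ψ (b y.1) y.2) := by
    intro ψ f J b hJ w
    have := run_flatMap_add (Sum.elim f (fun y => J y.1 y.2))
      (Finset.univ : Finset (Fin d × Fin D)).toList
      (fun y => (G (skipC i y) (fun a => ψ a y.2)).map
        (fun x => ((Sum.inr (y.1, x.1) : (Fin d → Fin k) ⊕ (Fin d × V)), x.2)))
      (fun y _ => Pi.single (skipC i y) (ψ (b y.1) y.2))
      (by
        intro y _ w
        rw [run_map (fun v => (Sum.inr (y.1, v) : (Fin d → Fin k) ⊕ (Fin d × V)))]
        exact hG2 (skipC i y) (fun a => ψ a y.2) (J y.1) (b y.1) (hJ y.1) w)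
      (by intros; rfl) w
    rw [this, Finset.sum_map_toList]
  -- queries
  let term : F → (Fin d → Fin k) → (Idx d D → F) → F := fun j a w =>
    ∏ y : Fin d × Fin D, (ℓ (dig (a y.1) y.2)).eval (j * w (skipC i y))
  have hterm : ∀ j a w c, term j a (w + Pi.single i c) = term j a w := by
    intro j a w c
    simp only [term]
    apply Finset.prod_congr rfl
    intro y _
    congr 2
    simp [Pi.single_eq_of_ne (skipC_ne i y)]
  let qry : F → List (((Fin d → Fin k) ⊕ (Fin d × V)) × (Fin k → (Idx d D → F) → (Idx d D → F))) :=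
    fun j => (Finset.univ : Finset (Fin d → Fin k)).toList.flatMap (fun a =>
      [(Sum.inl a, fun x w => w + Pi.single i (-(φ x * term j a w)))])
  have hqry_len : ∀ j, (qry j).length ≤ k ^ d := by
    intro j
    have := length_flatMap_le (Finset.univ : Finset (Fin d → Fin k)).toList (fun a =>
      [((Sum.inl a : (Fin d → Fin k) ⊕ (Fin d × V)),
        fun (x : Fin k) (w : Idx d D → F) => w + Pi.single i (-(φ x * term j a w)))]) 1
      (fun _ _ => by simp)
    refine this.trans ?_
    rw [Finset.length_toList]
    simp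
  have hqry : ∀ j (f : (Fin d → Fin k) → Fin k) (J : Fin d → V → Fin k) (w : Idx d D → F),
      run (Sum.elim f (fun y => J y.1 y.2)) (qry j) w =
        w + Pi.single i (∑ a : Fin d → Fin k, -(φ (f a) * term j a w)) := by
    intro j f J w
    have := run_flatMap_add (Sum.elim f (fun y : Fin d × V => J y.1 y.2))
      (Finset.univ : Finset (Fin d → Fin k)).toList
      (fun a => [((Sum.inl a : (Fin d → Fin k) ⊕ (Fin d × V)),
        fun (x : Fin k) (w : Idx d D → F) => w + Pi.single i (-(φ x * term j a w)))])
      (fun a w => Pi.single i (-(φ (f a) * term j a w)))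
      (by intro a _ w; rfl)
      (by intro a _ b _ w; simp only [hterm]) w
    rw [this, Finset.sum_map_toList]
    congr 1
    exact (map_sum (AddMonoidHom.single (fun _ : Idx d D => F) i) _ _).symm
  -- one round
  let rnd : F → List (((Fin d → Fin k) ⊕ (Fin d × V)) × (Fin k → (Idx d D → F) → (Idx d D → F))) :=
    fun j => call (fun a t => j⁻¹ * pt (dig a t)) ++ qry j ++
      call (fun a t => -(j⁻¹ * pt (dig a t)))
  let poly : ((Fin d → Fin k) → Fin k) → (Fin d → Fin k) → (Idx d D → F) → F[X] := fun f b w =>
    ∑ a : Fin d → Fin k, C (φ (f a)) * ∏ y : Fin d × Fin D,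
      (ℓ (dig (a y.1) y.2)).comp (C (w (skipC i y)) * X + C (pt (dig (b y.1) y.2)))
  have hrnd : ∀ j : F, j ≠ 0 → ∀ (f : (Fin d → Fin k) → Fin k) (J : Fin d → V → Fin k)
      (b : Fin d → Fin k), (∀ c, R (J c) (b c)) → ∀ w : Idx d D → F,
      run (Sum.elim f (fun y => J y.1 y.2)) (rnd j) w =
        w + Pi.single i (-(poly f b w).eval j) := by
    intro j hj f J b hJ w
    simp only [rnd]
    rw [run_append, run_append, hcall (fun a t => j⁻¹ * pt (dig a t)) f J b hJ w, hqry,
      hcall (fun a t => -(j⁻¹ * pt (dig a t))) f J b hJ]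
    have hcoord : ∀ y : Fin d × Fin D,
        (w + ∑ y : Fin d × Fin D, Pi.single (skipC i y)
          (j⁻¹ * pt (dig (b y.1) y.2)) : Idx d D → F) (skipC i y) =
        w (skipC i y) + j⁻¹ * pt (dig (b y.1) y.2) := by
      intro y
      rw [Pi.add_apply, Finset.sum_apply]
      congr 1
      rw [Finset.sum_eq_single y]
      · simp
      · intro b _ hb
        exact Pi.single_eq_of_ne (fun h => hb (skipC_inj i h).symm) _
      · intro h; exact absurd (Finset.mem_univ _) h
    have hsum : (∑ a : Fin d → Fin k, -(φ (f a) * term j a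
        (w + ∑ y : Fin d × Fin D, Pi.single (skipC i y)
          (j⁻¹ * pt (dig (b y.1) y.2))))) = -(poly f b w).eval j := by
      rw [Finset.sum_neg_distrib]
      congr 1
      simp only [poly, term, eval_finsetSum, eval_mul, eval_C, eval_prod, eval_comp, eval_add,
        eval_X]
      apply Finset.sum_congr rfl
      intro a _
      congr 1
      apply Finset.prod_congr rfl
      intro y _
      rw [hcoord y]
      congr 1
      field_simp
    rw [hsum]
    have hcancel : (∑ y : Fin d × Fin D, Pi.single (skipC i y)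
          (j⁻¹ * pt (dig (b y.1) y.2)) : Idx d D → F) +
        ∑ y : Fin d × Fin D, Pi.single (skipC i y)
          (-(j⁻¹ * pt (dig (b y.1) y.2))) = 0 := by
      rw [← Finset.sum_add_distrib]
      apply Finset.sum_eq_zero
      intro y _
      rw [← Pi.single_add]
      simp
    calc _ = w + Pi.single i (-(poly f b w).eval j) +
        ((∑ y : Fin d × Fin D, Pi.single (skipC i y)
          (j⁻¹ * pt (dig (b y.1) y.2)) : Idx d D → F) +
        ∑ y : Fin d × Fin D, Pi.single (skipC i y)
          (-(j⁻¹ * pt (dig (b y.1) y.2)))) := by abel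
      _ = _ := by rw [hcancel, add_zero]
  have hpoly_inv : ∀ f b w c, poly f b (w + Pi.single i c) = poly f b w := by
    intro f b w c
    simp only [poly]
    apply Finset.sum_congr rfl
    intro a _
    congr 1
    apply Finset.prod_congr rfl
    intro y _
    congr 4
    simp [Pi.single_eq_of_ne (skipC_ne i y)]
  have hpoly_deg : ∀ f b w, (poly f b w).natDegree < Fintype.card F - 1 := by
    intro f b w
    refine lt_of_le_of_lt ?_ hδ
    simp only [poly]
    apply natDegree_sum_le_of_forall_le
    intro a _
    refine (natDegree_C_mul_le _ _).trans ?_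
    refine (natDegree_prod_le _ _).trans ?_
    calc ∑ y : Fin d × Fin D, ((ℓ (dig (a y.1) y.2)).comp (C (w (skipC i y)) * X +
          C (pt (dig (b y.1) y.2)))).natDegree
        ≤ ∑ _y : Fin d × Fin D, δ := by
          apply Finset.sum_le_sum
          intro y _
          refine natDegree_comp_le.trans ?_
          calc (ℓ (dig (a y.1) y.2)).natDegree * (C (w (skipC i y)) * X +
              C (pt (dig (b y.1) y.2))).natDegree ≤ δ * 1 :=
                Nat.mul_le_mul (hdeg _) (natDegree_linear_le)
            _ = δ := mul_one _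
      _ = d * D * δ := by simp
  have hpoly0 : ∀ f b w, (poly f b w).eval 0 = φ (f b) := by
    intro f b w
    simp only [poly, eval_finsetSum, eval_mul, eval_C, eval_prod, eval_comp, eval_add,
        eval_X, mul_zero, zero_add, hev]
    rw [Finset.sum_eq_single b]
    · simp
    · intro a _ ha
      have : ∃ c, a c ≠ b c := by
        by_contra hcon
        push Not at hcon
        exact ha (funext hcon)
      obtain ⟨c, hc⟩ := this
      have : ∃ t, dig (a c) t ≠ dig (b c) t := by
        by_contra hcon
        push Not at hcon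
        exact hc (hdig (funext hcon))
      obtain ⟨t, ht⟩ := this
      rw [Finset.prod_eq_zero (Finset.mem_univ (c, t)), mul_zero]
      rw [if_neg ht]
    · intro h; exact absurd (Finset.mem_univ _) h
  -- all rounds
  refine ⟨((Finset.univ : Finset F).erase 0).toList.flatMap rnd, ?_, ?_⟩
  · have h1 := length_flatMap_le ((Finset.univ : Finset F).erase 0).toList rnd
      (2 * (d * D * L) + k ^ d) (fun j _ => by
        simp only [rnd, List.length_append]
        have a1 := hcall_len (fun a t => j⁻¹ * pt (dig a t))
        have a2 := hcall_len (fun a t => -(j⁻¹ * pt (dig a t)))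
        have a3 := hqry_len j
        omega)
    refine h1.trans ?_
    apply Nat.mul_le_mul_right
    rw [Finset.length_toList]
    exact (Finset.card_erase_le).trans (by simp)
  · intro f J b hJ w
    have := run_flatMap_add (Sum.elim f (fun y => J y.1 y.2))
      ((Finset.univ : Finset F).erase 0).toList rnd
      (fun j w => Pi.single i (-(poly f b w).eval j))
      (by
        intro j hj w
        refine hrnd j ?_ f J b hJ w
        have := Finset.mem_toList.mp hj
        exact Finset.ne_of_mem_erase this)
      (by intro j _ j' _ w; simp only [hpoly_inv]) w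
    rw [this, Finset.sum_map_toList]
    congr 1
    rw [← hpoly0 f b w, ← sum_eval_erase (poly f b w) (hpoly_deg f b w)]
    exact (map_sum (AddMonoidHom.single (fun _ : Idx d D => F) i) _ _).symm

/-- adding a function of the value of the root to a coordinate -/
theorem exists_adds (ℓ : Fin s → F[X]) (pt : Fin s → F) (δ : ℕ)
    (hdeg : ∀ c, (ℓ c).natDegree ≤ δ) (hev : ∀ c c', (ℓ c).eval (pt c') = if c = c' then 1 else 0)
    (dig : Fin k → Fin D → Fin s) (hdig : Function.Injective dig)
    (hδ : d * D * δ < Fintype.card F - 1) :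
    ∀ (n : ℕ) (i : Idx d D) (φ : Fin k → F),
      ∃ P : List (Var d k n × (Fin k → (Idx d D → F) → (Idx d D → F))),
        P.length ≤ len d D k (Fintype.card F) n ∧
        ∀ (J : Var d k n → Fin k) (b : Fin k),
          (∃ T : Inst d k n, J = ask d k n T ∧ b = value d k n T) →
          ∀ w, run J P w = w + Pi.single i (φ b) := by
  intro n
  induction n with
  | zero =>
    intro i φ
    refine ⟨[((() : Unit), fun a w => w + Pi.single i (φ a))], by simp [len], ?_⟩
    rintro J b ⟨T, rfl, rfl⟩ w
    rfl
  | succ n ih =>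
    intro i φ
    obtain ⟨P, hP1, hP2⟩ := step (Var d k n)
      (fun J b => ∃ T : Inst d k n, J = ask d k n T ∧ b = value d k n T)
      (len d D k (Fintype.card F) n) ℓ pt δ hdeg hev dig hdig hδ ih i φ
    refine ⟨P, hP1, ?_⟩
    rintro J b ⟨T, rfl, rfl⟩ w
    exact hP2 T.1 (fun c => ask d k n (T.2 c)) (fun c => value d k n (T.2 c))
      (fun c => ⟨T.2 c, rfl, rfl⟩) w

end rec

end Pool.Agent.Helper5.TreeExp
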