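import Pool.Agent.Helper5.TreeExp.Defs

namespace Pool.Agent.Helper5.TreeExp

open Polynomial

/-- run of a straight-line program -/
def run {V M : Type} {k : ℕ} (I : V → Fin k) : List (V × (Fin k → M → M)) → M → M
  | [], m => m
  | x :: P, m => run I P (x.2 (I x.1) m)

section basics

variable {V M : Type} {k : ℕ}

theorem run_append (I : V → Fin k) (P Q : List (V × (Fin k → M → M))) (m : M) :
    run I (P ++ Q) m = run I Q (run I P m) := by
  induction P generalizing m with
  | nil => rfl
  | cons x P ih => simp [run, ih]

theorem run_map {V' : Type} (g : V → V') (I : V' → Fin k) (P : List (V × (Fin k → M → M)))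
    (m : M) : run I (P.map (fun x => (g x.1, x.2))) m = run (fun v => I (g v)) P m := by
  induction P generalizing m with
  | nil => rfl
  | cons x P ih => simp [run, ih]

theorem run_flatMap_add [AddCommMonoid M] {ι : Type} (I : V → Fin k) (l : List ι)
    (Pr : ι → List (V × (Fin k → M → M))) (δ : ι → M → M)
    (h : ∀ x ∈ l, ∀ w, run I (Pr x) w = w + δ x w)
    (hinv : ∀ x ∈ l, ∀ y ∈ l, ∀ w, δ x (w + δ y w) = δ x w) (w : M) :
    run I (l.flatMap Pr) w = w + (l.map (fun x => δ x w)).sum := by
  induction l generalizing w with
  | nil => simp [run]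
  | cons x l ih =>
    rw [List.flatMap_cons, run_append, h x (by simp),
      ih (fun y hy => h y (by simp [hy])) (fun y hy z hz => hinv y (by simp [hy]) z (by simp [hz]))]
    simp only [List.map_cons, List.sum_cons]
    rw [add_assoc]
    congr 2
    have : ∀ y ∈ l, δ y (w + δ x w) = δ y w := fun y hy => hinv y (by simp [hy]) x (by simp) w
    rw [List.map_congr_left this]

theorem length_flatMap_le {ι α : Type} (l : List ι) (Pr : ι → List α) (b : ℕ)
    (h : ∀ x ∈ l, (Pr x).length ≤ b) : (l.flatMap Pr).length ≤ l.length * b := by
  induction l with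
  | nil => simp
  | cons x l ih =>
    rw [List.flatMap_cons, List.length_append, List.length_cons]
    have h1 := h x (by simp)
    have h2 := ih (fun y hy => h y (by simp [hy]))
    calc (Pr x).length + (l.flatMap Pr).length ≤ b + l.length * b := by omega
      _ = (l.length + 1) * b := by ring

/-- a straight-line program gives a branching program -/
theorem exists_BP [Fintype M] (P : List (V × (Fin k → M → M))) (m0 : M) (out : M → Fin k) :
    ∃ B : BP V k ((P.length + 1) * Fintype.card M), ∀ I : V → Fin k,
      B.Outputs I (out (run I P m0)) := by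
  classical
  have hc : Fintype.card (Fin (P.length + 1) × M) = (P.length + 1) * Fintype.card M := by simp
  let e : (Fin (P.length + 1) × M) ≃ Fin ((P.length + 1) * Fintype.card M) :=
    Fintype.equivFinOfCardEq hc
  let B : BP V k ((P.length + 1) * Fintype.card M) :=
    { start := e (0, m0)
      act := fun q => if h : ((e.symm q).1 : ℕ) < P.length then
          Sum.inl ((P.get ⟨(e.symm q).1, h⟩).1,
            fun a => e (⟨(e.symm q).1 + 1, by omega⟩, (P.get ⟨(e.symm q).1, h⟩).2 a (e.symm q).2))
        else Sum.inr (out (e.symm q).2) }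
  refine ⟨B, fun I => ⟨P.length, ?_⟩⟩
  have key : ∀ (j : ℕ) (hj : j ≤ P.length), (B.step I)^[j] B.start =
      e (⟨j, by omega⟩, run I (P.take j) m0) := by
    intro j
    induction j with
    | zero => intro _; simp [B, run]
    | succ j ih =>
      intro hj
      rw [Function.iterate_succ_apply', ih (by omega)]
      have hlt : j < P.length := by omega
      have hact : B.act (e (⟨j, by omega⟩, run I (P.take j) m0)) =
          Sum.inl ((P.get ⟨j, hlt⟩).1,
            fun a => e (⟨j + 1, by omega⟩, (P.get ⟨j, hlt⟩).2 a (run I (P.take j) m0))) := by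
        simp [B, hlt]
      unfold BP.step
      rw [hact]
      simp only [Sum.elim_inl]
      congr 2
      rw [List.take_succ_eq_append_getElem hlt, run_append]
      rfl
  rw [key P.length le_rfl]
  simp [B]

end basics

section field

variable {F : Type} [Field F] [Fintype F] [DecidableEq F]

theorem sum_eval_eq_zero (P : F[X]) (hP : P.natDegree < Fintype.card F - 1) :
    ∑ x : F, P.eval x = 0 := by
  simp_rw [Polynomial.eval_eq_sum_range]
  rw [Finset.sum_comm]
  apply Finset.sum_eq_zero
  intro i hi
  rw [← Finset.mul_sum]
  rw [FiniteField.sum_pow_lt_card_sub_one, mul_zero]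
  have := Finset.mem_range.mp hi
  omega

theorem sum_eval_erase (P : F[X]) (hP : P.natDegree < Fintype.card F - 1) :
    ∑ x ∈ Finset.univ.erase (0 : F), (-P.eval x) = P.eval 0 := by
  have h := sum_eval_eq_zero P hP
  rw [← Finset.add_sum_erase _ _ (Finset.mem_univ (0 : F))] at h
  rw [Finset.sum_neg_distrib]
  exact (eq_neg_of_add_eq_zero_left h).symm

end field

end Pool.Agent.Helper5.TreeExp
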